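import Pool.Agent.Q66.FD.C

/-! Project FD, job A: pointwise inequality implies the weak one. -/

set_option autoImplicit false

open MeasureTheory Filter Topology Set Metric

noncomputable section

namespace Q66.FD

theorem Lt_meas' {s t : ℝ} (ht : 0 < t) {f : ℂ → ℝ} (hf : Measurable f) :
    Measurable (Lt s t f) := by
  have h1 : Measurable (fun p : ℂ × ℂ => (f p.1 - f (p.1 + p.2)) * Jt s t p.2) :=
    ((hf.comp measurable_fst).sub (hf.comp (measurable_fst.add measurable_snd))).mul
      ((Jt_cont s ht).measurable.comp measurable_snd)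
  exact (h1.stronglyMeasurable.integral_prod_right').measurable

theorem Jt_neg (s t : ℝ) (z : ℂ) : Jt s t (-z) = Jt s t z := by
  unfold Jt
  rw [norm_neg]

theorem Lt_symm {s t : ℝ} (hJt : Integrable (Jt s t)) {f : ℂ → ℝ} (hf : Measurable f)
    {M : ℝ} (hM : ∀ x, |f x| ≤ M) (x : ℂ) :
    Integrable (fun z : ℂ => (2 * f x - f (x + z) - f (x - z)) * Jt s t z) ∧
    Lt s t f x = 1 / 2 * ∫ z : ℂ, (2 * f x - f (x + z) - f (x - z)) * Jt s t z := by
  have h1 := Lt_int hJt hf hM x
  have h2 : Integrable (fun z : ℂ => (f x - f (x - z)) * Jt s t z) := by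
    have h3 := h1.comp_neg
    refine h3.congr (Eventually.of_forall fun z => ?_)
    change (f x - f (x + -z)) * Jt s t (-z) = (f x - f (x - z)) * Jt s t z
    rw [Jt_neg, ← sub_eq_add_neg]
  have h4 : ∫ z : ℂ, (f x - f (x - z)) * Jt s t z = Lt s t f x := by
    unfold Lt
    rw [← integral_neg_eq_self (fun z : ℂ => (f x - f (x + z)) * Jt s t z)]
    refine integral_congr_ae (Eventually.of_forall fun z => ?_)
    change (f x - f (x - z)) * Jt s t z = (f x - f (x + -z)) * Jt s t (-z)
    rw [Jt_neg, ← sub_eq_add_neg]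
  have h5 : (fun z : ℂ => (2 * f x - f (x + z) - f (x - z)) * Jt s t z) =
      fun z => (f x - f (x + z)) * Jt s t z + (f x - f (x - z)) * Jt s t z := by
    funext z
    ring
  rw [h5]
  refine ⟨h1.add h2, ?_⟩
  rw [integral_add h1 h2, h4]
  unfold Lt
  ring

theorem t_A : S_J → S_SUP → S_PROD → S_SYM → S_A := by
  intro hJ hS hP hY s hs0 hs1 Ω u M hΩ hu hM hneg w hw
  obtain ⟨hJt, hJi, hJle, -, -, -⟩ := hJ s hs0 hs1
  obtain ⟨-, -, hLi, hLm, -, -⟩ := hP s hs0 hs1 w hw.c2
  obtain ⟨hS1, hS2⟩ := hS u M hu hM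
  have hM0 : 0 ≤ M := (abs_nonneg _).trans (hM 0)
  have hwc : Continuous w := hw.c2.diff.continuous
  have hwi : Integrable w := hwc.integrable_of_hasCompactSupport hw.c2.supp
  have hseq : Tendsto (fun n : ℕ => 1 / ((n : ℝ) + 1)) atTop (𝓝[>] 0) := by
    refine tendsto_nhdsWithin_iff.mpr ⟨tendsto_one_div_add_atTop_nhds_zero_nat,
      Eventually.of_forall fun n => ?_⟩
    exact (Nat.one_div_pos_of_nat : (0 : ℝ) < 1 / ((n : ℝ) + 1))
  obtain ⟨r, hr, hrΩ⟩ := hw.c2.supp.isCompact.exists_cthickening_subset_open hΩ hw.sub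
  have hvb : ∀ δ : ℝ, 0 < δ → ∀ x, |sc u δ x| ≤ M := by
    intro δ hδ x
    obtain ⟨h1, h2⟩ := (hS1 δ hδ).1 x
    rw [abs_le]
    exact ⟨(abs_le.mp (hM x)).1.trans h1, h2⟩
  -- the inequality for the sup-convolutions
  have hδ : ∀ δ : ℝ, 0 < δ → 4 * M * δ ≤ r ^ 2 → ∫ x, sc u δ x * LL s w x ≤ 0 := by
    intro δ hδ hδr
    obtain ⟨-, hvm, hvy, hv2⟩ := hS1 δ hδ
    have hv := hvb δ hδ
    obtain ⟨hY1, hY2⟩ := hY s hs0 hs1 w hw.c2 (sc u δ) M hvm hv
    -- the uniform upper bound
    let B : ℝ := max (1 / δ) (4 * M)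
    let C : ℝ := 1 / 2 * (B * ∫ z : ℂ, min 1 (‖z‖ ^ 2) * J s z)
    have hub : ∀ t : ℝ, 0 < t → ∀ x, Lt s t (sc u δ) x ≤ C := by
      intro t ht x
      obtain ⟨h1, h2⟩ := Lt_symm (hJt t ht) hvm hv x
      rw [h2]
      refine mul_le_mul_of_nonneg_left ?_ (by norm_num)
      rw [← integral_const_mul]
      refine integral_mono_ae h1 (hJi.const_mul B) ?_
      have h13 : ∀ᵐ z : ℂ, z ≠ 0 := by
        rw [ae_iff]
        simp
      filter_upwards [h13] with z hz
      obtain ⟨h3, h4⟩ := hJle t ht z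
      have h5 : 2 * sc u δ x - sc u δ (x + z) - sc u δ (x - z) ≤ B * min 1 (‖z‖ ^ 2) := by
        rcases le_total (‖z‖ ^ 2) 1 with h | h
        · rw [min_eq_right h]
          refine (hv2 x z).trans ?_
          rw [div_eq_inv_mul, ← one_div]
          exact mul_le_mul_of_nonneg_right (le_max_left _ _) (sq_nonneg _)
        · rw [min_eq_left h, mul_one]
          have := abs_le.mp (hv x)
          have := abs_le.mp (hv (x + z))
          have := abs_le.mp (hv (x - z))
          exact le_trans (by linarith) (le_max_right _ _)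
      have hB0 : 0 ≤ B := (by positivity : (0 : ℝ) ≤ 1 / δ).trans (le_max_left _ _)
      have h6 : 0 ≤ min 1 (‖z‖ ^ 2) := le_min zero_le_one (sq_nonneg _)
      calc (2 * sc u δ x - sc u δ (x + z) - sc u δ (x - z)) * Jt s t z
          ≤ (B * min 1 (‖z‖ ^ 2)) * Jt s t z := mul_le_mul_of_nonneg_right h5 h3.le
        _ ≤ (B * min 1 (‖z‖ ^ 2)) * J s z :=
            mul_le_mul_of_nonneg_left (h4 hz) (mul_nonneg hB0 h6)
        _ = B * (min 1 (‖z‖ ^ 2) * J s z) := by ring
    have hC0 : 0 ≤ max C 0 := le_max_right _ _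
    -- the positive parts tend to zero
    have hlim : Tendsto (fun n : ℕ => ∫ x, w x * max (Lt s (1 / ((n : ℝ) + 1)) (sc u δ) x) 0)
        atTop (𝓝 (∫ _x : ℂ, (0 : ℝ))) := by
      refine tendsto_integral_of_dominated_convergence (fun x => w x * max C 0) ?_
        (hwi.mul_const _) ?_ ?_
      · intro n
        exact (hwc.measurable.mul ((Lt_meas' Nat.one_div_pos_of_nat hvm).max
          measurable_const)).aestronglyMeasurable
      · intro n
        refine Eventually.of_forall fun x => ?_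
        rw [Real.norm_eq_abs, abs_mul, abs_of_nonneg (hw.nonneg x),
          abs_of_nonneg (le_max_right _ _)]
        refine mul_le_mul_of_nonneg_left ?_ (hw.nonneg x)
        exact max_le_max (hub _ Nat.one_div_pos_of_nat x) le_rfl
      · refine Eventually.of_forall fun x => ?_
        by_cases hx : x ∈ tsupport w
        · obtain ⟨y, hy1, hy2⟩ := hvy x
          have hyΩ : y ∈ Ω := by
            apply hrΩ
            refine mem_cthickening_of_dist_le y x r _ hx ?_
            rw [dist_comm, dist_eq_norm]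
            exact le_of_sq_le_sq (hy1.trans hδr) hr.le
          obtain ⟨t₀, ht₀, htn⟩ := hneg y hyΩ
          have h1 : ∀ᶠ n : ℕ in atTop, w x * max (Lt s (1 / ((n : ℝ) + 1)) (sc u δ) x) 0 = 0 := by
            have h2 : ∀ᶠ t in 𝓝[>] (0 : ℝ), t < t₀ := by
              refine eventually_nhdsWithin_of_eventually_nhds (gt_mem_nhds ht₀)
            filter_upwards [hseq.eventually h2] with n hn
            have h3 : Lt s (1 / ((n : ℝ) + 1)) (sc u δ) x ≤ 0 := by
              refine le_trans ?_ (htn _ Nat.one_div_pos_of_nat hn)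
              refine integral_mono (Lt_int (hJt _ Nat.one_div_pos_of_nat) hvm hv x)
                (Lt_int (hJt _ Nat.one_div_pos_of_nat) hu.measurable hM y) fun z => ?_
              exact mul_le_mul_of_nonneg_right (hy2 z)
                (hJle _ Nat.one_div_pos_of_nat z).1.le
            rw [max_eq_right h3, mul_zero]
          exact tendsto_const_nhds.congr' (h1.mono fun n hn => hn.symm)
        · have h1 : w x = 0 := image_eq_zero_of_notMem_tsupport hx
          simp only [h1, zero_mul]
          exact tendsto_const_nhds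
    rw [integral_zero] at hlim
    have hlim2 : Tendsto (fun n : ℕ => ∫ x, w x * Lt s (1 / ((n : ℝ) + 1)) (sc u δ) x)
        atTop (𝓝 (∫ x, sc u δ x * LL s w x)) := by
      refine (hY2.comp hseq).congr fun n => ?_
      exact (hY1 _ Nat.one_div_pos_of_nat).symm
    refine le_of_tendsto_of_tendsto' hlim2 hlim fun n => ?_
    have hmeas : Measurable (Lt s (1 / ((n : ℝ) + 1)) (sc u δ)) :=
      Lt_meas' Nat.one_div_pos_of_nat hvm
    have hi2 : Integrable (fun x => w x * max (Lt s (1 / ((n : ℝ) + 1)) (sc u δ) x) 0) := by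
      refine (hwi.mul_const (max C 0)).mono'
        (hwc.measurable.mul (hmeas.max measurable_const)).aestronglyMeasurable ?_
      refine Eventually.of_forall fun x => ?_
      rw [Real.norm_eq_abs, abs_mul, abs_of_nonneg (hw.nonneg x),
        abs_of_nonneg (le_max_right _ _)]
      refine mul_le_mul_of_nonneg_left ?_ (hw.nonneg x)
      exact max_le_max (hub _ Nat.one_div_pos_of_nat x) le_rfl
    have hi1 : Integrable (fun x => w x * Lt s (1 / ((n : ℝ) + 1)) (sc u δ) x) := by
      have hJn := hJt _ (Nat.one_div_pos_of_nat : (0 : ℝ) < 1 / ((n : ℝ) + 1))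
      have hJp := fun z => (hJle _ (Nat.one_div_pos_of_nat : (0 : ℝ) < 1 / ((n : ℝ) + 1)) z).1.le
      refine (hwi.mul_const (2 * M * ∫ z : ℂ, Jt s (1 / ((n : ℝ) + 1)) z)).mono'
        (hwc.measurable.mul hmeas).aestronglyMeasurable ?_
      refine Eventually.of_forall fun x => ?_
      rw [Real.norm_eq_abs, abs_mul, abs_of_nonneg (hw.nonneg x)]
      refine mul_le_mul_of_nonneg_left ?_ (hw.nonneg x)
      rw [← integral_const_mul]
      refine (abs_integral_le_integral_abs).trans ?_
      refine integral_mono (Lt_int hJn hvm hv x).abs (hJn.const_mul _) fun z => ?_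
      change |(sc u δ x - sc u δ (x + z)) * Jt s (1 / ((n : ℝ) + 1)) z| ≤ _
      rw [abs_mul, abs_of_nonneg (hJp z)]
      refine mul_le_mul_of_nonneg_right ?_ (hJp z)
      refine (abs_sub _ _).trans ?_
      linarith [hv x, hv (x + z)]
    refine integral_mono hi1 hi2 fun x => ?_
    exact mul_le_mul_of_nonneg_left (le_max_left _ _) (hw.nonneg x)
  -- the limit
  have hfin : Tendsto (fun δ => ∫ x, sc u δ x * LL s w x) (𝓝[>] 0) (𝓝 (∫ x, u x * LL s w x)) := by
    refine tendsto_integral_filter_of_dominated_convergence (fun x => M * |LL s w x|) ?_ ?_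
      (hLi.abs.const_mul M) ?_
    · filter_upwards [self_mem_nhdsWithin] with δ hδ
      exact ((hS1 δ hδ).2.1.mul hLm).aestronglyMeasurable
    · filter_upwards [self_mem_nhdsWithin] with δ hδ
      refine Eventually.of_forall fun x => ?_
      rw [Real.norm_eq_abs, abs_mul]
      exact mul_le_mul_of_nonneg_right (hvb δ hδ x) (abs_nonneg _)
    · refine Eventually.of_forall fun x => ?_
      exact (hS2 x).mul_const _
  refine le_of_tendsto hfin ?_
  have h1 : ∀ᶠ δ in 𝓝[>] (0 : ℝ), δ < r ^ 2 / (4 * M + 1) :=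
    eventually_nhdsWithin_of_eventually_nhds (gt_mem_nhds (by positivity))
  filter_upwards [h1, self_mem_nhdsWithin] with δ h2 h3
  refine hδ δ h3 ?_
  rw [lt_div_iff₀ (by positivity)] at h2
  have h4 : (0 : ℝ) < δ := h3
  nlinarith

end Q66.FD
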