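import Pool.Agent.Q66.FD.Stm

/-! Project FD: assembly. -/

set_option autoImplicit false

open MeasureTheory Filter Topology Set Metric

noncomputable section

namespace Q66.FD

variable {s : ℝ} {Ω : Set ℂ} {w : ℂ → ℝ}

theorem Bp.zero (hw : Bp Ω w) {x : ℂ} (hx : x ∉ Ω) : w x = 0 :=
  image_eq_zero_of_notMem_tsupport fun h => hx (hw.sub h)

theorem reg_of (hD : S_D) (hs0 : 0 < s) (hs1 : s < 1) (hw : Bp Ω w) (k : ℝ) :
    IsRegular s Ω (fun x => k * w x) := by
  have hc : Continuous (fun x => k * w x) := continuous_const.mul hw.c2.diff.continuous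
  refine ⟨hc.memLp_of_hasCompactSupport (hw.c2.supp.mul_left), ?_, ?_⟩
  · have h1 := ((hD s hs0 hs1 w hw.c2).2.2.2.2).const_mul (k ^ 2)
    refine h1.congr (Eventually.of_forall fun p => ?_)
    change k ^ 2 * ((w p.1 - w p.2) ^ 2 / ‖p.1 - p.2‖ ^ (2 + 2 * s)) =
      (k * w p.1 - k * w p.2) ^ 2 / ‖p.1 - p.2‖ ^ (2 + 2 * s)
    rw [← mul_div_assoc]
    congr 1
    ring
  · obtain ⟨C, hC⟩ := hw.c2.diff.lipschitzWith_of_hasCompactSupport hw.c2.supp (by norm_num)
    refine ⟨1, |k| * C, one_pos, le_refl _, fun x _ y _ => ?_⟩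
    rw [Real.rpow_one, ← mul_sub, abs_mul, mul_assoc]
    refine mul_le_mul_of_nonneg_left ?_ (abs_nonneg k)
    have h1 := hC.dist_le_mul x y
    rwa [Real.dist_eq, dist_eq_norm] at h1

theorem weak_of (hJ : S_J) (hCV : S_CONV) (hC : S_C) (hD : S_D) (hs0 : 0 < s)
    (hs1 : s < 1) (hΩ : IsOpen Ω) (hb : Bornology.IsBounded Ω) (hfr : volume (frontier Ω) = 0)
    (hw : Bp Ω w) (k lam : ℝ) (f c μ : ℂ → ℝ)
    (h : ∀ x ∈ Ω, lam * f x + c x * (k * w x) + μ x * (k ^ 2 * (aC s / 2 * DD s w x)) =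
      k * (aC s * LL s w x)) : IsWeakSol s Ω lam f c μ (fun x => k * w x) := by
  have ha : 0 < aC s := (hJ s hs0 hs1).2.2.2.2.2
  have hvol : volume Ω < ⊤ := hb.measure_lt_top
  obtain ⟨hD1, hD2, ⟨CD, hD3⟩, -, -⟩ := hD s hs0 hs1 w hw.c2
  refine ⟨fun x hx => by simp only [hw.zero hx, mul_zero], ?_,
    fun x => k ^ 2 * (aC s / 2 * DD s w x), ?_, ?_, ?_⟩
  · exact ((continuous_const.mul hw.c2.diff.continuous).integrable_of_hasCompactSupport
      hw.c2.supp.mul_left).integrableOn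
  · refine Eventually.of_forall fun x => ?_
    have h1 := ((hD1 x).const_mul (aC s / 2)).const_mul (k ^ 2)
    refine h1.congr fun ε => ?_
    have h2 : ∫ z in {z : ℂ | ε < ‖z - x‖}, (k * w x - k * w z) ^ 2 / ‖x - z‖ ^ (2 + 2 * s) =
        k ^ 2 * ∫ z in {z : ℂ | ε < ‖z - x‖}, (w x - w z) ^ 2 / ‖x - z‖ ^ (2 + 2 * s) := by
      rw [← integral_const_mul]
      refine integral_congr_ae (Eventually.of_forall fun z => ?_)
      change (k * w x - k * w z) ^ 2 / ‖x - z‖ ^ (2 + 2 * s) =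
        k ^ 2 * ((w x - w z) ^ 2 / ‖x - z‖ ^ (2 + 2 * s))
      rw [← mul_div_assoc]
      congr 1
      ring
    rw [h2]
    ring
  · refine Measure.integrableOn_of_bounded (M := k ^ 2 * (aC s / 2 * CD)) hvol.ne
      ((measurable_const.mul (measurable_const.mul hD2)).aestronglyMeasurable)
      (Eventually.of_forall fun x => ?_)
    rw [Real.norm_eq_abs, abs_mul, abs_mul, abs_of_nonneg (sq_nonneg k),
      abs_of_pos (half_pos ha)]
    exact mul_le_mul_of_nonneg_left (mul_le_mul_of_nonneg_left (hD3 x) (half_pos ha).le)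
      (sq_nonneg k)
  · intro φ g hφ
    obtain ⟨Mg, hMg⟩ := hφ.bdd
    -- `φ` is bounded
    obtain ⟨M, hM⟩ : ∃ M : ℝ, ∀ x, |φ x| ≤ M := by
      have hcs : HasCompactSupport φ := by
        refine HasCompactSupport.intro hb.isCompact_closure fun x hx => hφ.supp x hx
      obtain ⟨M, hM⟩ := hcs.exists_bound_of_continuous hφ.cont
      exact ⟨M, fun x => by simpa using hM x⟩
    have hlim : ∀ x ∈ Ω, Tendsto (fun t => Lt s t φ x) (𝓝[>] 0) (𝓝 (g x / aC s)) := by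
      intro x hx
      refine hCV s hs0 hs1 φ M _ x hφ.cont hM ?_
      have h1 := (hφ.lap x hx).const_mul (aC s)⁻¹
      have h2 : (aC s)⁻¹ * g x = g x / aC s := by rw [div_eq_inv_mul]
      rw [h2] at h1
      refine h1.congr fun ε => ?_
      rw [← mul_assoc, inv_mul_cancel₀ ha.ne', one_mul]
    have hmain := hC s hs0 hs1 Ω φ (fun x => g x / aC s) (|Mg| / aC s) hΩ hb hφ.cont hφ.supp
      (div_nonneg (abs_nonneg _) ha.le)
      (fun x hx => by
        rw [abs_div, abs_of_pos ha]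
        exact div_le_div_of_nonneg_right ((hMg x hx).trans (le_abs_self _)) ha.le) hlim w hw
    have hset : ∫ x, φ x * LL s w x = ∫ x in Ω, φ x * LL s w x := by
      rw [← setIntegral_congr_set (closure_ae_eq_of_null_frontier hfr),
        setIntegral_eq_integral_of_forall_compl_eq_zero]
      intro x hx
      rw [hφ.supp x hx, zero_mul]
    rw [hset] at hmain
    have h3 : ∫ x in Ω, (lam * f x + c x * (k * w x) +
        μ x * (k ^ 2 * (aC s / 2 * DD s w x))) * φ x =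
        ∫ x in Ω, k * aC s * (φ x * LL s w x) := by
      refine setIntegral_congr_fun hΩ.measurableSet fun x hx => ?_
      rw [h x hx]
      ring
    rw [h3, integral_const_mul, ← hmain, ← integral_const_mul]
    refine setIntegral_congr_fun hΩ.measurableSet fun x _ => ?_
    change k * aC s * (g x / aC s * w x) = k * w x * g x
    field_simp

/-- a bump function, with a ball in `Ω` where it vanishes -/
theorem exists_bump (hΩ : IsOpen Ω) (hne : Ω.Nonempty) : ∃ w : ℂ → ℝ, Bp Ω w ∧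
    (∃ x ∈ Ω, w x ≠ 0) ∧ ContDiff ℝ ((⊤ : ℕ∞) : WithTop ℕ∞) w ∧
      ∃ y r, 0 < r ∧ ball y r ⊆ Ω ∧ ∀ x ∈ ball y r, w x = 0 := by
  obtain ⟨x₀, hx₀⟩ := hne
  obtain ⟨R, hR, hball⟩ := Metric.isOpen_iff.mp hΩ x₀ hx₀
  let b : ContDiffBump x₀ := ⟨R / 4, R / 2, by linarith, by linarith⟩
  have hts : tsupport b = closedBall x₀ (R / 2) := b.tsupport_eq
  refine ⟨b, ⟨⟨b.contDiff, b.hasCompactSupport⟩, ?_, fun x => b.nonneg⟩, ⟨x₀, hx₀, ?_⟩, ?_,
    x₀ + ((3 * R / 4 : ℝ) : ℂ), R / 4, by linarith, ?_, ?_⟩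
  · rw [hts]
    exact (closedBall_subset_ball (by linarith)).trans hball
  · rw [b.one_of_mem_closedBall (mem_closedBall_self (by change 0 ≤ R / 4; linarith))]
    exact one_ne_zero
  · exact b.contDiff
  · intro x hx
    apply hball
    rw [mem_ball, dist_eq_norm] at hx ⊢
    have h1 : x - x₀ = (x - (x₀ + ((3 * R / 4 : ℝ) : ℂ))) + ((3 * R / 4 : ℝ) : ℂ) := by ring
    rw [h1]
    refine (norm_add_le _ _).trans_lt ?_
    rw [Complex.norm_real, Real.norm_of_nonneg (by linarith)]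
    linarith
  · intro x hx
    apply image_eq_zero_of_notMem_tsupport
    rw [hts, mem_closedBall, not_le, dist_eq_norm]
    rw [mem_ball, dist_eq_norm] at hx
    have h1 : ((3 * R / 4 : ℝ) : ℂ) = (x - x₀) - (x - (x₀ + ((3 * R / 4 : ℝ) : ℂ))) := by ring
    have h2 : ‖((3 * R / 4 : ℝ) : ℂ)‖ ≤ ‖x - x₀‖ + ‖x - (x₀ + ((3 * R / 4 : ℝ) : ℂ))‖ := by
      conv_lhs => rw [h1]
      exact norm_sub_le _ _
    rw [Complex.norm_real, Real.norm_of_nonneg (by linarith)] at h2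
    linarith

/-- The main theorem. -/
theorem main (hJ : S_J) (hCV : S_CONV) (hP : S_PROD) (hC : S_C) (hD : S_D) (hN : S_NEG)
    (hs0 : 0 < s) (hs1 : s < 1) (hΩ : IsOpen Ω) (hne : Ω.Nonempty)
    (hb : Bornology.IsBounded Ω) (hfr : volume (frontier Ω) = 0) (c : ℂ → ℝ) (hc : Measurable c)
    (hcb : ∃ C : ℝ, ∀ x, |c x| ≤ C) :
    ∃ w : ℂ → ℝ, ContDiff ℝ ((⊤ : ℕ∞) : WithTop ℕ∞) w ∧ (∃ x ∈ Ω, w x ≠ 0) ∧
    (∃ μ : ℂ → ℝ, Measurable μ ∧ (∃ C : ℝ, ∀ x, |μ x| ≤ C) ∧ ∀ lam : ℝ,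
      (IsWeakSol s Ω lam (fun _ => 0) c μ (fun _ => 0) ∧ IsRegular s Ω (fun _ => 0)) ∧
      (IsWeakSol s Ω lam (fun _ => 0) c μ w ∧ IsRegular s Ω w)) ∧
    ∃ μ f : ℂ → ℝ, Measurable μ ∧ (∃ C : ℝ, ∀ x, |μ x| ≤ C) ∧ Measurable f ∧
      (∃ C : ℝ, ∀ x, |f x| ≤ C) ∧ (¬ ∀ᵐ x ∂(volume.restrict Ω), f x = 0) ∧
      (IsWeakSol s Ω 1 f c μ w ∧ IsRegular s Ω w) ∧
      (IsWeakSol s Ω 1 f c μ (fun x => 2 * w x) ∧ IsRegular s Ω (fun x => 2 * w x)) := by
  obtain ⟨w, hw, hw0, hwt, y, r, hr, hyr, hwz⟩ := exists_bump hΩ hne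
  have ha : 0 < aC s := (hJ s hs0 hs1).2.2.2.2.2
  obtain ⟨-, -, -, hLm, ⟨CL, hCL⟩, -⟩ := hP s hs0 hs1 w hw.c2
  obtain ⟨-, hDm, -, hDlow, -⟩ := hD s hs0 hs1 w hw.c2
  obtain ⟨R, hR⟩ := hb.exists_norm_le
  obtain ⟨x₀, -, hx₀⟩ := hw0
  obtain ⟨d, hd, hdlow⟩ := hDlow ⟨x₀, hx₀⟩ R
  obtain ⟨Cc, hCc⟩ := hcb
  obtain ⟨Cw, hCw⟩ : ∃ C : ℝ, ∀ x, |w x| ≤ C := by
    obtain ⟨C, hC⟩ := hw.c2.supp.exists_bound_of_continuous hw.c2.diff.continuous
    exact ⟨C, fun x => by simpa using hC x⟩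
  -- the numerator
  let X : ℂ → ℝ := fun x => aC s * LL s w x - c x * w x
  have hXm : Measurable X := (measurable_const.mul hLm).sub (hc.mul hw.c2.diff.continuous.measurable)
  have hXb : ∀ x, |X x| ≤ aC s * CL + Cc * Cw := by
    intro x
    refine (abs_sub _ _).trans (add_le_add ?_ ?_)
    · rw [abs_mul, abs_of_pos ha]
      exact mul_le_mul_of_nonneg_left (hCL x) ha.le
    · rw [abs_mul]
      exact mul_le_mul (hCc x) (hCw x) (abs_nonneg _) ((abs_nonneg _).trans (hCc x))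
  let q : ℂ → ℝ := Ω.indicator fun x => X x / (aC s / 2 * DD s w x)
  have hqm : Measurable q := (hXm.div (measurable_const.mul hDm)).indicator hΩ.measurableSet
  have hpos : ∀ x ∈ Ω, 0 < aC s / 2 * DD s w x := fun x hx =>
    mul_pos (half_pos ha) (hd.trans_le (hdlow x (hR x hx)))
  have hqb : ∀ x, |q x| ≤ (aC s * CL + Cc * Cw) / (aC s / 2 * d) := by
    intro x
    have h0 : 0 ≤ aC s * CL + Cc * Cw := (abs_nonneg _).trans (hXb x)
    by_cases hx : x ∈ Ω
    · change |Ω.indicator (fun x => X x / (aC s / 2 * DD s w x)) x| ≤ _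
      rw [indicator_of_mem hx, abs_div, abs_of_pos (hpos x hx)]
      exact div_le_div₀ h0 (hXb x) (mul_pos (half_pos ha) hd)
        (mul_le_mul_of_nonneg_left (hdlow x (hR x hx)) (half_pos ha).le)
    · change |Ω.indicator (fun x => X x / (aC s / 2 * DD s w x)) x| ≤ _
      rw [indicator_of_notMem hx, abs_zero]
      exact div_nonneg h0 (mul_pos (half_pos ha) hd).le
  have hqX : ∀ x ∈ Ω, q x * (aC s / 2 * DD s w x) = X x := by
    intro x hx
    change Ω.indicator (fun x => X x / (aC s / 2 * DD s w x)) x * _ = _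
    rw [indicator_of_mem hx, div_mul_cancel₀ _ (hpos x hx).ne']
  have e1 : (fun x => 1 * w x) = w := by
    funext x
    rw [one_mul]
  refine ⟨w, hwt, ⟨x₀, by_contra fun h => hx₀ (hw.zero h), hx₀⟩, ⟨q, hqm, ⟨_, hqb⟩,
    fun lam => ⟨⟨?_, ?_⟩, ?_, ?_⟩⟩, fun x => q x / 3, Ω.indicator fun x => 2 / 3 * X x,
    hqm.div_const 3, ⟨(aC s * CL + Cc * Cw) / (aC s / 2 * d), fun x => ?_⟩,
    (measurable_const.mul hXm).indicator hΩ.measurableSet,
    ⟨aC s * CL + Cc * Cw, fun x => ?_⟩, ?_, ⟨?_, ?_⟩, ?_, ?_⟩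
  · have h1 := weak_of hJ hCV hC hD hs0 hs1 hΩ hb hfr hw 0 lam (fun _ => 0) c q fun x _ => by ring
    have e0 : (fun x => 0 * w x) = fun _ => (0 : ℝ) := by
      funext x
      rw [zero_mul]
    rwa [e0] at h1
  · have h1 := reg_of hD hs0 hs1 hw 0
    have e0 : (fun x => 0 * w x) = fun _ => (0 : ℝ) := by
      funext x
      rw [zero_mul]
    rwa [e0] at h1
  · have h1 := weak_of hJ hCV hC hD hs0 hs1 hΩ hb hfr hw 1 lam (fun _ => 0) c q fun x hx => by
      have h2 := hqX x hx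
      change q x * (aC s / 2 * DD s w x) = aC s * LL s w x - c x * w x at h2
      rw [one_pow, one_mul, one_mul, h2]
      ring
    rwa [e1] at h1
  · have h1 := reg_of hD hs0 hs1 hw 1
    rwa [e1] at h1
  · rw [abs_div, abs_of_pos (by norm_num : (0 : ℝ) < 3)]
    exact (div_le_self (abs_nonneg _) (by norm_num)).trans (hqb x)
  · by_cases hx : x ∈ Ω
    · rw [indicator_of_mem hx, abs_mul, abs_of_pos (by norm_num : (0 : ℝ) < 2 / 3)]
      have := hXb x
      have := abs_nonneg (X x)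
      linarith
    · rw [indicator_of_notMem hx, abs_zero]
      exact (abs_nonneg _).trans (hXb x)
  · intro hae
    rw [ae_restrict_iff' hΩ.measurableSet] at hae
    have hsub : ball y r ⊆ {x | ¬ (x ∈ Ω → Ω.indicator (fun x => 2 / 3 * X x) x = 0)} := by
      intro x hx h0
      have hxΩ := hyr hx
      have h1 := h0 hxΩ
      rw [indicator_of_mem hxΩ] at h1
      have h2 : X x < 0 := by
        change aC s * LL s w x - c x * w x < 0
        rw [hwz x hx, mul_zero, sub_zero]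
        exact mul_neg_of_pos_of_neg ha
          (hN s hs0 hs1 w hw.c2 hw.nonneg ⟨x₀, hx₀⟩ x (hwz x hx))
      linarith
    have h3 : volume (ball y r) = 0 := measure_mono_null hsub hae
    exact (measure_ball_pos volume y hr).ne' h3
  · have h1 := weak_of hJ hCV hC hD hs0 hs1 hΩ hb hfr hw 1 1 (Ω.indicator fun x => 2 / 3 * X x) c
      (fun x => q x / 3) fun x hx => by
      have h2 := hqX x hx
      change q x * (aC s / 2 * DD s w x) = aC s * LL s w x - c x * w x at h2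
      have h3 : q x / 3 * (1 ^ 2 * (aC s / 2 * DD s w x)) =
          1 / 3 * (q x * (aC s / 2 * DD s w x)) := by ring
      rw [indicator_of_mem hx, h3, h2]
      change 1 * (2 / 3 * (aC s * LL s w x - c x * w x)) + _ + _ = _
      ring
    rwa [e1] at h1
  · have h1 := reg_of hD hs0 hs1 hw 1
    rwa [e1] at h1
  · refine weak_of hJ hCV hC hD hs0 hs1 hΩ hb hfr hw 2 1 (Ω.indicator fun x => 2 / 3 * X x) c
      (fun x => q x / 3) fun x hx => ?_
    have h2 := hqX x hx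
    change q x * (aC s / 2 * DD s w x) = aC s * LL s w x - c x * w x at h2
    have h3 : q x / 3 * (2 ^ 2 * (aC s / 2 * DD s w x)) =
        4 / 3 * (q x * (aC s / 2 * DD s w x)) := by ring
    rw [indicator_of_mem hx, h3, h2]
    change 1 * (2 / 3 * (aC s * LL s w x - c x * w x)) + _ + _ = _
    ring
  · exact reg_of hD hs0 hs1 hw 2

end Q66.FD
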