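import Pool.Agent.Q66.FD.Stm

/-! Project FD, job C: the main identity. -/

set_option autoImplicit false

open MeasureTheory Filter Topology Set Metric

noncomputable section

namespace Q66.FD

theorem Jt_cont (s : ℝ) {t : ℝ} (ht : 0 < t) : Continuous (Jt s t) := by
  unfold Jt
  refine Continuous.rpow_const (by fun_prop) fun z => Or.inl ?_
  have := sq_nonneg ‖z‖
  positivity

theorem Lt_int {s t : ℝ} (hJt : Integrable (Jt s t)) {f : ℂ → ℝ} (hf : Measurable f)
    {M : ℝ} (hM : ∀ x, |f x| ≤ M) (x : ℂ) :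
    Integrable (fun z : ℂ => (f x - f (x + z)) * Jt s t z) := by
  refine hJt.bdd_mul (c := M + M) ?_ ?_
  · exact (measurable_const.sub (hf.comp (measurable_const.add measurable_id))).aestronglyMeasurable
  · refine Eventually.of_forall fun z => ?_
    rw [Real.norm_eq_abs]
    exact (abs_sub _ _).trans (add_le_add (hM _) (hM _))

theorem Lt_meas {s t : ℝ} (ht : 0 < t) {f : ℂ → ℝ} (hf : Continuous f) :
    Measurable (Lt s t f) := by
  have h1 : Continuous (fun p : ℂ × ℂ => (f p.1 - f (p.1 + p.2)) * Jt s t p.2) :=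
    ((hf.comp continuous_fst).sub (hf.comp (continuous_fst.add continuous_snd))).mul
      ((Jt_cont s ht).comp continuous_snd)
  exact (h1.stronglyMeasurable.integral_prod_right').measurable

theorem t_C : S_J → S_PROD → S_A → S_K2 → S_K3 → S_K4 → S_MAJ → S_C := by
  intro hJ hP hA hK2 hK3 hK4 hMaj s hs0 hs1 Ω φ g M hΩ hb hφ hsupp hM0 hg hlim w hw
  obtain ⟨-, -, hLi, hLm, -, -⟩ := hP s hs0 hs1 w hw.c2
  have hJt := (hJ s hs0 hs1).1
  obtain ⟨hkpos, -, hkint, hC0⟩ := hK2 s hs0 hs1
  obtain ⟨hK4a, hK4b, hK4c⟩ := hK4 s hs0 hs1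
  have hwc : Continuous w := hw.c2.diff.continuous
  obtain ⟨Cw, hCw⟩ : ∃ C : ℝ, ∀ x, |w x| ≤ C := by
    obtain ⟨C, hC⟩ := hw.c2.supp.exists_bound_of_continuous hwc
    exact ⟨C, fun x => by simpa using hC x⟩
  have hCw0 : 0 ≤ Cw := (abs_nonneg _).trans (hCw 0)
  have hvol : volume Ω ≠ ⊤ := hb.measure_lt_top.ne
  have hseq : Tendsto (fun n : ℕ => 1 / ((n : ℝ) + 1)) atTop (𝓝[>] 0) := by
    refine tendsto_nhdsWithin_iff.mpr ⟨tendsto_one_div_add_atTop_nhds_zero_nat,
      Eventually.of_forall fun n => ?_⟩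
    exact (Nat.one_div_pos_of_nat : (0 : ℝ) < 1 / ((n : ℝ) + 1))
  -- the one sided inequality
  have key : ∀ φ g : ℂ → ℝ, Continuous φ → (∀ x, x ∉ closure Ω → φ x = 0) →
      (∀ x ∈ Ω, |g x| ≤ M) → (∀ x ∈ Ω, Tendsto (fun t => Lt s t φ x) (𝓝[>] 0) (𝓝 (g x))) →
      ∫ x, φ x * LL s w x ≤ ∫ x in Ω, g x * w x := by
    intro φ g hφ hsupp hg hlim
    obtain ⟨Mφ, hMφ⟩ : ∃ M : ℝ, ∀ x, |φ x| ≤ M := by
      have hcs : HasCompactSupport φ :=
        HasCompactSupport.intro hb.isCompact_closure fun x hx => hsupp x hx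
      obtain ⟨M, hM⟩ := hcs.exists_bound_of_continuous hφ
      exact ⟨M, fun x => by simpa using hM x⟩
    have hgm : Measurable (Ω.indicator g) := by
      refine measurable_of_tendsto_metrizable
        (f := fun n : ℕ => Ω.indicator (Lt s (1 / ((n : ℝ) + 1)) φ)) (fun n => ?_) ?_
      · exact (Lt_meas Nat.one_div_pos_of_nat hφ).indicator hΩ.measurableSet
      · rw [tendsto_pi_nhds]
        intro x
        by_cases hx : x ∈ Ω
        · simp only [indicator_of_mem hx]
          exact (hlim x hx).comp hseq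
        · simp only [indicator_of_notMem hx]
          exact tendsto_const_nhds
    have hgi : IntegrableOn g Ω := by
      have h1 : IntegrableOn (Ω.indicator g) Ω := by
        refine Measure.integrableOn_of_bounded (M := M) hvol hgm.aestronglyMeasurable ?_
        refine Eventually.of_forall fun x => ?_
        rw [Real.norm_eq_abs]
        by_cases hx : x ∈ Ω
        · rw [indicator_of_mem hx]
          exact hg x hx
        · rw [indicator_of_notMem hx, abs_zero]
          exact hM0
      exact h1.congr_fun (fun x hx => indicator_of_mem hx g) hΩ.measurableSet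
    refine le_of_forall_pos_le_add fun η' hη' => ?_
    obtain ⟨η, hη, hηη⟩ : ∃ η : ℝ, 0 < η ∧ Cw * η ≤ η' := by
      refine ⟨η' / (Cw + 1), by positivity, ?_⟩
      rw [← mul_div_assoc, div_le_iff₀ (by positivity)]
      nlinarith
    obtain ⟨ρ, hρ, hρ0, hρg, hρi, hρ₀⟩ := hMaj Ω g M η hΩ hb hgm hM0 hg hη
    obtain ⟨hpi, hpc, ⟨B, hB⟩⟩ := hK3 s hs0 hs1 ρ hρ
    obtain ⟨Mρ, hMρ⟩ := hρ.bdd
    have hB0 : 0 ≤ B := (abs_nonneg _).trans (hB 0)
    have hMφ0 : 0 ≤ Mφ := (abs_nonneg _).trans (hMφ 0)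
    -- the difference
    have huc : Continuous (fun x => φ x - pot s ρ x / C0 s) := hφ.sub (hpc.div_const _)
    have hub : ∀ x, |φ x - pot s ρ x / C0 s| ≤ Mφ + B / C0 s := by
      intro x
      refine (abs_sub _ _).trans (add_le_add (hMφ x) ?_)
      rw [abs_div, abs_of_pos hC0]
      exact div_le_div_of_nonneg_right (hB x) hC0.le
    have hneg : ∀ y ∈ Ω, ∃ t₀ : ℝ, 0 < t₀ ∧ ∀ t : ℝ, 0 < t → t < t₀ →
        Lt s t (fun x => φ x - pot s ρ x / C0 s) y ≤ 0 := by
      intro y hy
      obtain ⟨ρ₀, h1, h2, h3, h4⟩ := hρ₀ y hy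
      have h5 : ∀ᶠ t in 𝓝[>] (0 : ℝ), Lt s t φ y < (g y + ρ₀ y) / 2 :=
        (hlim y hy).eventually (gt_mem_nhds (by linarith))
      have h6 : ∀ᶠ t in 𝓝[>] (0 : ℝ),
          C0 s * ((g y + ρ₀ y) / 2) < ∫ x : ℂ, kt s t (y - x) * ρ₀ x :=
        (hK4b ρ₀ h1 h2 y).eventually (lt_mem_nhds (mul_lt_mul_of_pos_left (by linarith) hC0))
      obtain ⟨t₀, ht₀, hsub⟩ := mem_nhdsGT_iff_exists_Ioo_subset.mp (h5.and h6)
      refine ⟨t₀, ht₀, fun t ht htt => ?_⟩
      obtain ⟨h7, h8⟩ := hsub ⟨ht, htt⟩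
      obtain ⟨h9, h10⟩ := hK4a ρ hρ t ht y
      have h11 : ∫ x : ℂ, kt s t (y - x) * ρ₀ x ≤ ∫ x : ℂ, kt s t (y - x) * ρ x := by
        refine integral_mono_ae ?_ h9 ?_
        · have h12 : Bd ρ₀ := by
            obtain ⟨M₀, hM₀⟩ := h2.exists_bound_of_continuous h1
            obtain ⟨R₀, hR₀⟩ := h2.isBounded.exists_norm_le
            refine ⟨h1.measurable, ⟨M₀, fun x => by simpa using hM₀ x⟩, R₀, fun x hx => ?_⟩
            apply image_eq_zero_of_notMem_tsupport
            intro h
            exact absurd (hR₀ x h) (not_le.mpr hx)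
          exact (hK4a ρ₀ h12 t ht y).1
        · have h13 : ∀ᵐ x : ℂ, x ≠ y := by
            rw [ae_iff]
            simp
          filter_upwards [h13] with x hx
          exact mul_le_mul_of_nonneg_left (h3 x) (hkpos t ht (y - x)
            (sub_ne_zero.mpr hx.symm)).le
      have h14 : Lt s t (fun x => φ x - pot s ρ x / C0 s) y =
          Lt s t φ y - Lt s t (pot s ρ) y / C0 s := by
        unfold Lt
        rw [← integral_div, ← integral_sub (Lt_int (hJt t ht) hφ.measurable hMφ y)
          ((Lt_int (hJt t ht) hpc.measurable hB y).div_const _)]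
        refine integral_congr_ae (Eventually.of_forall fun z => ?_)
        change (φ y - pot s ρ y / C0 s - (φ (y + z) - pot s ρ (y + z) / C0 s)) * Jt s t z =
          (φ y - φ (y + z)) * Jt s t z - (pot s ρ y - pot s ρ (y + z)) * Jt s t z / C0 s
        ring
      rw [h14, h10]
      have h15 : (g y + ρ₀ y) / 2 ≤ (∫ x : ℂ, kt s t (y - x) * ρ x) / C0 s := by
        rw [le_div_iff₀ hC0, mul_comm]
        exact (h8.trans_le h11).le
      linarith
    have hAA := hA s hs0 hs1 Ω (fun x => φ x - pot s ρ x / C0 s) (Mφ + B / C0 s) hΩ huc hub hneg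
      w hw
    have hi1 : Integrable (fun x => φ x * LL s w x) := by
      refine hLi.bdd_mul (c := Mφ) hφ.aestronglyMeasurable ?_
      exact Eventually.of_forall fun x => hMφ x
    have hi2 : Integrable (fun x => pot s ρ x * LL s w x) := by
      refine hLi.bdd_mul (c := B) hpc.aestronglyMeasurable ?_
      exact Eventually.of_forall fun x => hB x
    have h16 : ∫ x, (φ x - pot s ρ x / C0 s) * LL s w x =
        (∫ x, φ x * LL s w x) - ∫ x, ρ x * w x := by
      have h17 : ∫ x, ρ x * w x = ∫ x, pot s ρ x * LL s w x / C0 s := by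
        rw [integral_div, hK4c ρ hρ w hw.c2, mul_div_cancel_left₀ _ hC0.ne']
      rw [h17, ← integral_sub hi1 (hi2.div_const _)]
      refine integral_congr_ae (Eventually.of_forall fun x => ?_)
      change (φ x - pot s ρ x / C0 s) * LL s w x =
        φ x * LL s w x - pot s ρ x * LL s w x / C0 s
      ring
    rw [h16] at hAA
    have h18 : ∫ x, ρ x * w x = ∫ x in Ω, ρ x * w x := by
      rw [setIntegral_eq_integral_of_forall_compl_eq_zero]
      intro x hx
      rw [hρ0 x hx, zero_mul]
    have hρint : IntegrableOn ρ Ω :=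
      Measure.integrableOn_of_bounded (M := Mρ) hvol hρ.meas.aestronglyMeasurable
        (Eventually.of_forall fun x => hMρ x)
    have hwb : ∀ᵐ x ∂(volume.restrict Ω), ‖w x‖ ≤ Cw := Eventually.of_forall fun x => hCw x
    have hi3 : IntegrableOn (fun x => ρ x * w x) Ω := by
      have := Integrable.bdd_mul (μ := volume.restrict Ω) hρint hwc.aestronglyMeasurable hwb
      refine this.congr (Eventually.of_forall fun x => ?_)
      exact mul_comm _ _
    have hi4 : IntegrableOn (fun x => g x * w x) Ω := by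
      have := Integrable.bdd_mul (μ := volume.restrict Ω) hgi hwc.aestronglyMeasurable hwb
      refine this.congr (Eventually.of_forall fun x => ?_)
      exact mul_comm _ _
    have h19 : (∫ x in Ω, ρ x * w x) - ∫ x in Ω, g x * w x ≤ Cw * η := by
      rw [← integral_sub hi3 hi4]
      calc ∫ x in Ω, (ρ x * w x - g x * w x) ≤ ∫ x in Ω, Cw * (ρ x - g x) := by
            refine setIntegral_mono_on (hi3.sub hi4) ((hρint.sub hgi).const_mul Cw)
              hΩ.measurableSet fun x hx => ?_
            rw [← sub_mul, mul_comm]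
            exact mul_le_mul_of_nonneg_right ((le_abs_self _).trans (hCw x))
              (sub_nonneg.mpr (hρg x hx).le)
        _ = Cw * ∫ x in Ω, (ρ x - g x) := integral_const_mul _ _
        _ ≤ Cw * η := mul_le_mul_of_nonneg_left hρi hCw0
    rw [← h18] at h19
    linarith
  refine le_antisymm ?_ (key φ g hφ hsupp hg hlim)
  have h1 := key (fun x => -φ x) (fun x => -g x) hφ.neg
    (fun x hx => by rw [hsupp x hx, neg_zero]) (fun x hx => by rw [abs_neg]; exact hg x hx)
    (fun x hx => by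
      have h2 := (hlim x hx).neg
      refine h2.congr fun t => ?_
      unfold Lt
      rw [← integral_neg]
      refine integral_congr_ae (Eventually.of_forall fun z => ?_)
      change -((φ x - φ (x + z)) * Jt s t z) = (-φ x - -φ (x + z)) * Jt s t z
      ring)
  simp only [neg_mul, integral_neg] at h1
  linarith

end Q66.FD
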