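import Pool.Agent.Q66.FD.Stm
set_option autoImplicit false
open MeasureTheory Filter Topology Set
noncomputable section
namespace Q66.FD.ConvP
open Q66.FD

/-- the profile -/
def ch (s r : ℝ) : ℝ := (r ^ 2 / (1 + r ^ 2)) ^ (1 + s)

/-- its derivative -/
def kk (s r : ℝ) : ℝ := ((2 * r * (1 + r^2) - r^2 * (2 * r)) / (1 + r^2)^2) * (1 + s) *
  (r ^ 2 / (1 + r ^ 2)) ^ (1 + s - 1)

lemma ch_der (s r : ℝ) (h0 : 0 < s) : HasDerivAt (ch s) (kk s r) r := by
  have h1 : HasDerivAt (fun r : ℝ => r ^ 2 / (1 + r ^ 2))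
      ((2 * r * (1 + r^2) - r^2 * (2 * r)) / (1 + r^2)^2) r := by
    have a : HasDerivAt (fun r : ℝ => r ^ 2) (2 * r) r := by simpa using hasDerivAt_pow 2 r
    have b : HasDerivAt (fun r : ℝ => 1 + r ^ 2) (2 * r) r := a.const_add 1
    exact a.div b (by positivity)
  exact h1.rpow_const (p := 1 + s) (Or.inr (by linarith))

lemma kk_nonneg (s r : ℝ) (h0 : 0 < s) (hr : 0 ≤ r) : 0 ≤ kk s r := by
  unfold kk
  have : 2 * r * (1 + r^2) - r^2 * (2 * r) = 2 * r := by ring
  rw [this]; positivity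

lemma kk_cont (s : ℝ) (h0 : 0 < s) : Continuous (kk s) := by
  unfold kk
  apply Continuous.mul
  · apply Continuous.mul _ continuous_const
    exact Continuous.div (by fun_prop) (by fun_prop) (fun r => by positivity)
  · apply Continuous.rpow_const _ (fun _ => Or.inr (by linarith))
    exact (continuous_pow 2).div (by fun_prop) (fun r => by positivity)

lemma ch_lim (s : ℝ) (h0 : 0 < s) : Tendsto (ch s) atTop (𝓝 1) := by
  have h1 : Tendsto (fun r : ℝ => r ^ 2 / (1 + r ^ 2)) atTop (𝓝 1) := by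
    have : Tendsto (fun r : ℝ => 1 - (1 + r ^ 2)⁻¹) atTop (𝓝 (1 - 0)) := by
      apply Tendsto.const_sub
      apply Tendsto.inv_tendsto_atTop
      exact tendsto_atTop_add_const_left _ _ (tendsto_pow_atTop (by norm_num))
    rw [sub_zero] at this
    refine this.congr (fun r => ?_)
    have hP : (0:ℝ) < 1 + r ^ 2 := by positivity
    field_simp; ring
  have := h1.rpow_const (p := 1 + s) (Or.inl one_ne_zero)
  rw [Real.one_rpow] at this
  exact this

lemma ch_zero (s : ℝ) (h0 : 0 < s) : ch s 0 = 0 := by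
  simp only [ch]; norm_num
  exact Real.zero_rpow (by linarith)

lemma kk_int (s : ℝ) (h0 : 0 < s) : IntegrableOn (kk s) (Ioi 0) ∧ ∫ r in Ioi (0:ℝ), kk s r = 1 := by
  have h1 := integrableOn_Ioi_deriv_of_nonneg' (a := 0) (g := ch s) (g' := kk s) (l := 1)
    (fun r _ => ch_der s r h0) (fun r hr => kk_nonneg s r h0 (le_of_lt hr)) (ch_lim s h0)
  have h2 := integral_Ioi_of_hasDerivAt_of_nonneg' (a := 0) (g := ch s) (g' := kk s) (l := 1)
    (fun r _ => ch_der s r h0) (fun r hr => kk_nonneg s r h0 (le_of_lt hr)) (ch_lim s h0)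
  rw [ch_zero s h0, sub_zero] at h2
  exact ⟨h1, h2⟩

lemma lay (s t : ℝ) (h0 : 0 < s) (ht : 0 < t) (z : ℂ) :
    ∫ u in Ioi (0:ℝ), (Iio (‖z‖ / t)).indicator (kk s) u = ch s (‖z‖ / t) := by
  rw [setIntegral_indicator measurableSet_Iio]
  have hr : 0 ≤ ‖z‖ / t := by positivity
  have e : Ioi (0:ℝ) ∩ Iio (‖z‖ / t) = Ioo 0 (‖z‖ / t) := by ext u; simp
  rw [e, ← integral_Ioc_eq_integral_Ioo, ← intervalIntegral.integral_of_le hr,
    intervalIntegral.integral_eq_sub_of_hasDerivAt (fun r _ => ch_der s r h0)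
      ((kk_cont s h0).intervalIntegrable _ _), ch_zero s h0, sub_zero]

lemma J_ch (s t : ℝ) (ht : 0 < t) (z : ℂ) (hz : z ≠ 0) :
    J s z * ch s (‖z‖ / t) = Jt s t z := by
  have hz' : 0 < ‖z‖ := norm_pos_iff.2 hz
  simp only [J, ch, Jt]
  have e : (‖z‖ / t) ^ 2 / (1 + (‖z‖ / t) ^ 2) = ‖z‖ ^ 2 / (t ^ 2 + ‖z‖ ^ 2) := by
    field_simp
  rw [e, Real.div_rpow (by positivity) (by positivity)]
  have e1 : (‖z‖ ^ 2) ^ (1 + s) = ‖z‖ ^ (2 + 2 * s) := by
    rw [← Real.rpow_natCast, ← Real.rpow_mul hz'.le]; congr 1; push_cast; ring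
  rw [e1, Real.rpow_neg hz'.le, Real.rpow_neg (by positivity)]
  have : ‖z‖ ^ (2 + 2 * s) ≠ 0 := (Real.rpow_pos_of_pos hz' _).ne'
  field_simp

lemma J_meas (s : ℝ) : Measurable (J s) := by
  unfold J; exact measurable_norm.pow_const _

lemma J_nonneg (s : ℝ) (z : ℂ) : 0 ≤ J s z := by unfold J; positivity

lemma J_intOn (s : ℝ) (hJ : Integrable (fun z : ℂ => min 1 (‖z‖ ^ 2) * J s z)) (ρ : ℝ)
    (hρ : 0 < ρ) : IntegrableOn (J s) {z : ℂ | ρ < ‖z‖} := by
  have hm : MeasurableSet {z : ℂ | ρ < ‖z‖} := measurableSet_lt measurable_const measurable_norm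
  have h1 : IntegrableOn (fun z : ℂ => (min 1 (ρ ^ 2))⁻¹ * (min 1 (‖z‖ ^ 2) * J s z))
      {z : ℂ | ρ < ‖z‖} := (hJ.const_mul _).integrableOn
  refine Integrable.mono' h1 (J_meas s).aestronglyMeasurable ?_
  rw [ae_restrict_iff' hm]
  refine Eventually.of_forall (fun z hz => ?_)
  have hz' : ρ < ‖z‖ := hz
  rw [Real.norm_eq_abs, abs_of_nonneg (J_nonneg s z), ← mul_assoc]
  have hp : 0 < min 1 (ρ ^ 2) := by positivity
  have : 1 ≤ (min 1 (ρ ^ 2))⁻¹ * min 1 (‖z‖ ^ 2) := by
    rw [inv_mul_eq_div, one_le_div hp]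
    exact min_le_min le_rfl (by gcongr)
  nlinarith [J_nonneg s z]

theorem t_CONV : S_J → S_CONV := by
  intro hJ s h0 h1 φ M l x hφ hM hl
  obtain ⟨hJt, hJ2, -, -, -, -⟩ := hJ s h0 h1
  obtain ⟨G, hGd⟩ : ∃ G : ℂ → ℝ, G = fun z => φ x - φ (x + z) := ⟨_, rfl⟩
  have hG : ∀ z, |G z| ≤ 2 * M := by
    intro z; rw [hGd]
    calc |φ x - φ (x + z)| ≤ |φ x| + |φ (x + z)| := abs_sub _ _
      _ ≤ _ := by linarith [hM x, hM (x + z)]
  have hGc : Continuous G := by rw [hGd]; fun_prop
  obtain ⟨F, hFd⟩ : ∃ F : ℝ → ℝ, F = fun ρ => ∫ z in {z : ℂ | ρ < ‖z‖}, G z * J s z := ⟨_, rfl⟩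
  have hms : ∀ ρ : ℝ, MeasurableSet {z : ℂ | ρ < ‖z‖} := fun ρ =>
    measurableSet_lt measurable_const measurable_norm
  have hF : Tendsto F (𝓝[>] 0) (𝓝 l) := by
    refine hl.congr (fun ε => ?_)
    rw [hFd]
    have hm2 : MeasurableSet {z : ℂ | ε < ‖z - x‖} :=
      measurableSet_lt measurable_const (by fun_prop)
    simp only
    rw [← integral_indicator hm2, ← integral_indicator (hms ε),
      ← integral_add_left_eq_self _ x]
    congr 1
    funext z
    simp only [indicator, mem_ofPred_eq, add_sub_cancel_left]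
    split_ifs
    · rw [hGd, J, show x - (x + z) = -z by ring, norm_neg, Real.rpow_neg (norm_nonneg _), div_eq_mul_inv]
    · rfl
  have hGJ : ∀ ρ : ℝ, 0 < ρ → IntegrableOn (fun z => G z * J s z) {z : ℂ | ρ < ‖z‖} := by
    intro ρ hρ
    exact (J_intOn s hJ2 ρ hρ).bdd_mul (c := 2 * M) hGc.aestronglyMeasurable
      (Eventually.of_forall (fun z => by rw [Real.norm_eq_abs]; exact hG z))
  -- boundedness of F
  have hFb : ∃ B : ℝ, ∀ ρ : ℝ, 0 < ρ → |F ρ| ≤ B := by
    have h3 : ∀ᶠ ρ in 𝓝[>] (0:ℝ), |F ρ - l| < 1 := by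
      have := (tendsto_order.1 ((hF.sub_const l).abs)).2 1 (by simp)
      simpa using this
    obtain ⟨ρ₀, hρ₀, h4⟩ := mem_nhdsGT_iff_exists_Ioo_subset.1 h3
    have hρ₀' : 0 < ρ₀ := hρ₀
    refine ⟨max (|l| + 1) (∫ z in {z : ℂ | ρ₀ / 2 < ‖z‖}, 2 * M * J s z), fun ρ hρ => ?_⟩
    by_cases h : ρ < ρ₀
    · apply le_max_of_le_left
      have := h4 ⟨hρ, h⟩
      have h5 : |F ρ - l| < 1 := this
      have := abs_sub_abs_le_abs_sub (F ρ) l
      linarith
    · apply le_max_of_le_right
      push Not at h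
      have hsub : {z : ℂ | ρ < ‖z‖} ⊆ {z : ℂ | ρ₀ / 2 < ‖z‖} := by
        intro z hz
        have : ρ < ‖z‖ := hz
        show ρ₀ / 2 < ‖z‖
        linarith
      have hi : IntegrableOn (fun z => 2 * M * J s z) {z : ℂ | ρ₀ / 2 < ‖z‖} :=
        (J_intOn s hJ2 (ρ₀ / 2) (by positivity)).const_mul (2 * M)
      rw [hFd]
      calc |∫ z in {z : ℂ | ρ < ‖z‖}, G z * J s z|
          ≤ ∫ z in {z : ℂ | ρ < ‖z‖}, |G z * J s z| := by
            have := norm_integral_le_integral_norm (μ := volume.restrict {z : ℂ | ρ < ‖z‖})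
              (fun z => G z * J s z)
            simpa [Real.norm_eq_abs] using this
        _ ≤ ∫ z in {z : ℂ | ρ < ‖z‖}, 2 * M * J s z := by
            apply integral_mono (hGJ ρ hρ).abs (hi.mono_set hsub)
            intro z
            simp only
            rw [abs_mul, abs_of_nonneg (J_nonneg s z)]
            exact mul_le_mul_of_nonneg_right (hG z) (J_nonneg s z)
        _ ≤ _ := by
            apply setIntegral_mono_set hi _ (LE.le.eventuallyLE hsub)
            refine Eventually.of_forall (fun z => ?_)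
            have : 0 ≤ 2 * M := le_trans (abs_nonneg _) (hG z)
            exact mul_nonneg this (J_nonneg s z)
  obtain ⟨B, hB⟩ := hFb
  -- the product
  have hprod : ∀ t : ℝ, 0 < t → Integrable (fun p : ℂ × ℝ => G p.1 * J s p.1 *
      (Iio (‖p.1‖ / t)).indicator (kk s) p.2) (volume.prod (volume.restrict (Ioi (0:ℝ)))) := by
    intro t ht
    have hmeas : Measurable (fun p : ℂ × ℝ => (Iio (‖p.1‖ / t)).indicator (kk s) p.2) := by
      have : (fun p : ℂ × ℝ => (Iio (‖p.1‖ / t)).indicator (kk s) p.2) =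
          {p : ℂ × ℝ | p.2 < ‖p.1‖ / t}.indicator (fun p => kk s p.2) := by
        funext p; simp only [indicator, mem_Iio, mem_ofPred_eq]
      rw [this]
      apply Measurable.indicator
      · exact (kk_cont s h0).measurable.comp measurable_snd
      · exact measurableSet_lt measurable_snd (by fun_prop)
    have hm2 : Measurable (fun p : ℂ × ℝ => G p.1 * J s p.1 *
        (Iio (‖p.1‖ / t)).indicator (kk s) p.2) :=
      ((hGc.measurable.comp measurable_fst).mul ((J_meas s).comp measurable_fst)).mul hmeas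
    rw [integrable_prod_iff hm2.aestronglyMeasurable]
    constructor
    · refine Eventually.of_forall (fun z => ?_)
      simp only
      apply Integrable.const_mul
      exact (kk_int s h0).1.indicator measurableSet_Iio
    · have h5 : Integrable (fun z => |G z| * Jt s t z) :=
        (hJt t ht).bdd_mul (c := 2 * M) hGc.abs.aestronglyMeasurable
          (Eventually.of_forall (fun z => by rw [Real.norm_eq_abs, abs_abs]; exact hG z))
      refine h5.congr ?_
      have hne : ∀ᵐ z : ℂ, z ≠ 0 := by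
        rw [ae_iff]; simp
      filter_upwards [hne] with z hz
      have h6 : ∀ u ∈ Ioi (0:ℝ), ‖G z * J s z * (Iio (‖z‖ / t)).indicator (kk s) u‖ =
          |G z| * J s z * (Iio (‖z‖ / t)).indicator (kk s) u := by
        intro u hu
        rw [Real.norm_eq_abs, abs_mul, abs_mul, abs_of_nonneg (J_nonneg s z),
          abs_of_nonneg (indicator_apply_nonneg (fun _ => kk_nonneg s u h0 (le_of_lt hu)))]
      rw [setIntegral_congr_fun measurableSet_Ioi h6, integral_const_mul, lay s t h0 ht, mul_assoc,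
        J_ch s t ht z hz]
  have hin : ∀ t : ℝ, 0 < t → ∀ u ∈ Ioi (0:ℝ), ∫ z : ℂ, G z * J s z *
      (Iio (‖z‖ / t)).indicator (kk s) u = kk s u * F (t * u) := by
    intro t ht u hu
    rw [hFd]; simp only
    rw [← integral_indicator (hms (t*u)), ← integral_const_mul]
    congr 1
    funext z
    have hiff : u < ‖z‖ / t ↔ t * u < ‖z‖ := by rw [lt_div_iff₀ ht, mul_comm]
    simp only [indicator, mem_Iio, mem_ofPred_eq, hiff]
    split_ifs <;> ring
  have hLt : ∀ t : ℝ, 0 < t → Lt s t φ x = ∫ u in Ioi (0:ℝ), kk s u * F (t * u) := by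
    intro t ht
    have e1 : Lt s t φ x = ∫ z, ∫ u in Ioi (0:ℝ), G z * J s z *
        (Iio (‖z‖ / t)).indicator (kk s) u := by
      rw [Lt]
      apply integral_congr_ae
      have hne : ∀ᵐ z : ℂ, z ≠ 0 := by
        rw [ae_iff]; simp
      filter_upwards [hne] with z hz
      rw [integral_const_mul, lay s t h0 ht, mul_assoc, J_ch s t ht z hz, hGd]
    rw [e1, integral_integral_swap (hprod t ht)]
    exact setIntegral_congr_fun measurableSet_Ioi (hin t ht)
  have hlim : Tendsto (fun t : ℝ => ∫ u in Ioi (0:ℝ), kk s u * F (t * u)) (𝓝[>] 0)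
      (𝓝 (∫ u in Ioi (0:ℝ), kk s u * l)) := by
    apply tendsto_integral_filter_of_dominated_convergence (fun u => kk s u * B)
    · filter_upwards [self_mem_nhdsWithin] with t ht
      have := (hprod t ht).integral_prod_right
      refine (this.congr ?_).aestronglyMeasurable
      rw [EventuallyEq, ae_restrict_iff' measurableSet_Ioi]
      exact Eventually.of_forall (fun u hu => hin t ht u hu)
    · filter_upwards [self_mem_nhdsWithin] with t ht
      have ht' : 0 < t := ht
      rw [ae_restrict_iff' measurableSet_Ioi]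
      refine Eventually.of_forall (fun u hu => ?_)
      have hu' : 0 < u := hu
      have hk := kk_nonneg s u h0 hu'.le
      rw [Real.norm_eq_abs, abs_mul, abs_of_nonneg hk]
      exact mul_le_mul_of_nonneg_left (hB _ (by positivity)) hk
    · exact (kk_int s h0).1.mul_const _
    · rw [ae_restrict_iff' measurableSet_Ioi]
      refine Eventually.of_forall (fun u hu => ?_)
      have hu' : 0 < u := hu
      apply Tendsto.const_mul
      apply hF.comp
      apply tendsto_nhdsWithin_of_tendsto_nhds_of_eventually_within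
      · have : Tendsto (fun t : ℝ => t * u) (𝓝 0) (𝓝 (0 * u)) := tendsto_id.mul_const u
        rw [zero_mul] at this
        exact this.mono_left nhdsWithin_le_nhds
      · filter_upwards [self_mem_nhdsWithin] with t ht
        have ht' : 0 < t := ht
        exact mul_pos ht' hu'
  rw [integral_mul_const, (kk_int s h0).2, one_mul] at hlim
  refine hlim.congr' ?_
  filter_upwards [self_mem_nhdsWithin] with t ht
  exact (hLt t ht).symm

end Q66.FD.ConvP

namespace Q66.FD
theorem t_CONV : S_J → S_CONV := ConvP.t_CONV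
end Q66.FD
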