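import Pool.Agent.Q66.FD.Stm
set_option autoImplicit false
open MeasureTheory Filter Topology Set
noncomputable section
namespace Q66.FD.DP
open Q66.FD

lemma J_meas (s : ℝ) : Measurable (J s) := by
  unfold J; exact measurable_norm.pow_const _

lemma J_nonneg (s : ℝ) (z : ℂ) : 0 ≤ J s z := by unfold J; positivity

theorem t_D : S_J → S_D := by
  intro hJ s h0 h1 w hw
  obtain ⟨-, hm, -, -, -, -⟩ := hJ s h0 h1
  obtain ⟨m, hmd⟩ : ∃ m : ℂ → ℝ, m = fun z => min 1 (‖z‖ ^ 2) * J s z := ⟨_, rfl⟩
  rw [← hmd] at hm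
  have hmn : ∀ z, 0 ≤ m z := by
    intro z; rw [hmd]; exact mul_nonneg (by positivity) (J_nonneg s z)
  have hwc : Continuous w := hw.diff.continuous
  obtain ⟨W, hW⟩ := hwc.bounded_above_of_compact_support hw.supp
  have hW0 : 0 ≤ W := (norm_nonneg _).trans (hW 0)
  obtain ⟨K, hK⟩ := ContDiff.lipschitzWith_of_hasCompactSupport hw.supp hw.diff (by norm_num)
  obtain ⟨C, hC⟩ : ∃ C : ℝ, C = max (4 * W ^ 2) ((K:ℝ) ^ 2) := ⟨_, rfl⟩
  have hC0 : 0 ≤ C := by rw [hC]; positivity
  have hbd : ∀ x z : ℂ, (w x - w z) ^ 2 ≤ C * min 1 (‖x - z‖ ^ 2) := by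
    intro x z
    have a1 : (w x - w z) ^ 2 ≤ 4 * W ^ 2 := by
      have h1 := abs_le.1 (hW x)
      have h2 := abs_le.1 (hW z)
      have : |w x - w z| ≤ 2 * W := by rw [abs_le]; constructor <;> linarith
      calc (w x - w z) ^ 2 = |w x - w z| ^ 2 := (sq_abs _).symm
        _ ≤ (2 * W) ^ 2 := pow_le_pow_left₀ (abs_nonneg _) this 2
        _ = _ := by ring
    have a2 : (w x - w z) ^ 2 ≤ (K:ℝ) ^ 2 * ‖x - z‖ ^ 2 := by
      have := hK.dist_le_mul x z
      rw [Real.dist_eq, dist_eq_norm] at this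
      calc (w x - w z) ^ 2 = |w x - w z| ^ 2 := (sq_abs _).symm
        _ ≤ ((K:ℝ) * ‖x - z‖) ^ 2 := pow_le_pow_left₀ (abs_nonneg _) this 2
        _ = _ := by ring
    rcases le_total 1 (‖x - z‖ ^ 2) with h | h
    · rw [min_eq_left h, mul_one, hC]
      exact a1.trans (le_max_left _ _)
    · rw [min_eq_right h]
      refine a2.trans (mul_le_mul_of_nonneg_right ?_ (by positivity))
      rw [hC]; exact le_max_right _ _
  have hbd2 : ∀ x z : ℂ, (w x - w z) ^ 2 * J s (x - z) ≤ C * m (x - z) := by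
    intro x z
    rw [hmd]
    simp only
    rw [← mul_assoc]
    exact mul_le_mul_of_nonneg_right (hbd x z) (J_nonneg s _)
  have hnn : ∀ x z : ℂ, 0 ≤ (w x - w z) ^ 2 * J s (x - z) :=
    fun x z => mul_nonneg (sq_nonneg _) (J_nonneg s _)
  have hmeas2 : Measurable (fun p : ℂ × ℂ => (w p.1 - w p.2) ^ 2 * J s (p.1 - p.2)) :=
    (((hwc.measurable.comp measurable_fst).sub (hwc.measurable.comp measurable_snd)).pow_const 2).mul
      ((J_meas s).comp (measurable_fst.sub measurable_snd))
  have hmeas1 : ∀ x : ℂ, Measurable (fun z : ℂ => (w x - w z) ^ 2 * J s (x - z)) :=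
    fun x => hmeas2.comp (measurable_const.prodMk measurable_id)
  have hmi : ∀ x : ℂ, Integrable (fun z => C * m (x - z)) :=
    fun x => (hm.comp_sub_left x).const_mul C
  have hFi : ∀ x : ℂ, Integrable (fun z : ℂ => (w x - w z) ^ 2 * J s (x - z)) := by
    intro x
    refine (hmi x).mono' (hmeas1 x).aestronglyMeasurable (Eventually.of_forall (fun z => ?_))
    rw [Real.norm_eq_abs, abs_of_nonneg (hnn x z)]
    exact hbd2 x z
  have hconv : ∀ x z : ℂ, (w x - w z) ^ 2 / ‖x - z‖ ^ (2 + 2 * s) =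
      (w x - w z) ^ 2 * J s (x - z) := by
    intro x z
    rw [J, Real.rpow_neg (norm_nonneg _), div_eq_mul_inv]
  refine ⟨fun x => ?_, ?_, ⟨C * ∫ z, m z, fun x => ?_⟩, ?_, ?_⟩
  · simp_rw [hconv]
    have hms : ∀ ε : ℝ, MeasurableSet {z : ℂ | ε < ‖z - x‖} := fun ε =>
      measurableSet_lt measurable_const (by fun_prop)
    simp_rw [← integral_indicator (hms _)]
    unfold DD
    apply tendsto_integral_filter_of_dominated_convergence
      (fun z => (w x - w z) ^ 2 * J s (x - z))
    · exact Eventually.of_forall (fun ε => ((hmeas1 x).indicator (hms ε)).aestronglyMeasurable)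
    · refine Eventually.of_forall (fun ε => Eventually.of_forall (fun z => ?_))
      simp only [indicator, mem_ofPred_eq]
      split_ifs
      · rw [Real.norm_eq_abs, abs_of_nonneg (hnn x z)]
      · rw [norm_zero]; exact hnn x z
    · exact hFi x
    · have hne : ∀ᵐ z : ℂ, z ≠ x := by
        rw [ae_iff]; simp
      filter_upwards [hne] with z hz
      apply tendsto_const_nhds.congr'
      have hp : 0 < ‖z - x‖ := norm_pos_iff.2 (sub_ne_zero.2 hz)
      filter_upwards [Ioo_mem_nhdsGT hp] with ε hε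
      simp only [indicator, mem_ofPred_eq, if_pos hε.2]
  · exact (hmeas2.stronglyMeasurable.integral_prod_right').measurable
  · have hD0 : 0 ≤ DD s w x := integral_nonneg (hnn x)
    rw [abs_of_nonneg hD0]
    calc DD s w x ≤ ∫ z, C * m (x - z) := integral_mono (hFi x) (hmi x) (hbd2 x)
      _ = _ := by rw [integral_const_mul, integral_sub_left_eq_self m volume x]
  · rintro ⟨x₀, hx₀⟩ R
    obtain ⟨a, ha⟩ : ∃ a : ℝ, a = |w x₀| := ⟨_, rfl⟩
    have ha0 : 0 < a := by rw [ha]; exact abs_pos.2 hx₀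
    obtain ⟨r, hr, hrb⟩ := Metric.continuous_iff.1 hwc x₀ (a / 4) (by positivity)
    obtain ⟨R₁, hR₁⟩ := hw.supp.isCompact.isBounded.subset_closedBall 0
    obtain ⟨y₀, hy₀⟩ : ∃ y₀ : ℂ, y₀ = ((|R₁| + 1 : ℝ) : ℂ) := ⟨_, rfl⟩
    have hzero : ∀ z ∈ Metric.ball y₀ 1, w z = 0 := by
      intro z hz
      by_contra hne
      have h1 := hR₁ (subset_tsupport w hne)
      rw [mem_closedBall_zero_iff] at h1
      rw [Metric.mem_ball, dist_eq_norm] at hz
      have h2 : ‖y₀‖ = |R₁| + 1 := by
        rw [hy₀, Complex.norm_real, Real.norm_eq_abs, abs_of_pos (by positivity)]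
      have h3 : ‖y₀‖ ≤ ‖z‖ + ‖z - y₀‖ := by
        have := norm_sub_le z (z - y₀)
        rwa [sub_sub_cancel] at this
      have := le_abs_self R₁
      linarith
    -- a large radius
    obtain ⟨Q, hQ⟩ : ∃ Q : ℝ, Q = |R| + (‖x₀‖ + r) + (‖y₀‖ + 1) := ⟨_, rfl⟩
    have hQ0 : 0 < Q := by rw [hQ]; positivity
    have hJlow : ∀ x z : ℂ, ‖x‖ ≤ Q → ‖z‖ ≤ Q → x ≠ z → (2 * Q) ^ (-(2 + 2 * s)) ≤ J s (x - z) := by
      intro x z hx hz hne
      unfold J
      apply Real.rpow_le_rpow_of_nonpos (norm_pos_iff.2 (sub_ne_zero.2 hne))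
      · have := norm_sub_le x z; linarith
      · linarith
    have hkey : ∀ x : ℂ, ‖x‖ ≤ R → ∀ (B : Set ℂ), MeasurableSet B → volume B ≠ ⊤ →
        (∀ z ∈ B, ‖z‖ ≤ Q) → (∀ z ∈ B, a / 4 ≤ |w x - w z|) →
        (a / 4) ^ 2 * (2 * Q) ^ (-(2 + 2 * s)) * volume.real B ≤ DD s w x := by
      intro x hx B hB hBf hBQ hBa
      have hxQ : ‖x‖ ≤ Q := by
        rw [hQ]; have := le_abs_self R
        have := norm_nonneg x₀; have := norm_nonneg y₀; linarith
      calc (a / 4) ^ 2 * (2 * Q) ^ (-(2 + 2 * s)) * volume.real B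
          = ∫ z in B, (a / 4) ^ 2 * (2 * Q) ^ (-(2 + 2 * s)) := by
            rw [setIntegral_const, smul_eq_mul, mul_comm]
        _ ≤ ∫ z in B, (w x - w z) ^ 2 * J s (x - z) := by
            apply setIntegral_mono_on (integrableOn_const hBf) (hFi x).integrableOn hB
            intro z hz
            have h2 := hBa z hz
            have hne : x ≠ z := by
              rintro rfl
              rw [sub_self, abs_zero] at h2
              linarith
            apply mul_le_mul _ (hJlow x z hxQ (hBQ z hz) hne) (by positivity) (sq_nonneg _)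
            rw [← sq_abs (w x - w z)]
            exact pow_le_pow_left₀ (by positivity) h2 2
        _ ≤ DD s w x := setIntegral_le_integral (hFi x) (Eventually.of_forall (hnn x))
    refine ⟨min ((a / 4) ^ 2 * (2 * Q) ^ (-(2 + 2 * s)) * volume.real (Metric.ball x₀ r))
      ((a / 4) ^ 2 * (2 * Q) ^ (-(2 + 2 * s)) * volume.real (Metric.ball y₀ 1)), ?_, ?_⟩
    · have h2 : 0 < volume.real (Metric.ball x₀ r) :=
        ENNReal.toReal_pos (Metric.measure_ball_pos _ _ hr).ne' measure_ball_lt_top.ne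
      have h3 : 0 < volume.real (Metric.ball y₀ 1) :=
        ENNReal.toReal_pos (Metric.measure_ball_pos _ _ one_pos).ne' measure_ball_lt_top.ne
      apply lt_min <;> positivity
    · intro x hx
      by_cases h : |w x| ≤ a / 2
      · refine (min_le_left _ _).trans (hkey x hx _ Metric.isOpen_ball.measurableSet
          measure_ball_lt_top.ne (fun z hz => ?_) (fun z hz => ?_))
        · rw [Metric.mem_ball, dist_eq_norm] at hz
          have h4 : ‖z‖ ≤ ‖x₀‖ + ‖z - x₀‖ := by
            have := norm_add_le x₀ (z - x₀)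
            rwa [add_sub_cancel] at this
          have := abs_nonneg R; have := norm_nonneg y₀
          linarith
        · have h5 := hrb z hz
          rw [Real.dist_eq] at h5
          have h6 := abs_sub_abs_le_abs_sub (w x₀) (w z)
          have h7 := abs_sub_abs_le_abs_sub (w z) (w x)
          rw [abs_sub_comm (w x₀) (w z)] at h6
          rw [abs_sub_comm (w z) (w x)] at h7
          rw [← ha] at h6
          linarith
      · push Not at h
        refine (min_le_right _ _).trans (hkey x hx _ Metric.isOpen_ball.measurableSet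
          measure_ball_lt_top.ne (fun z hz => ?_) (fun z hz => ?_))
        · rw [Metric.mem_ball, dist_eq_norm] at hz
          have h4 : ‖z‖ ≤ ‖y₀‖ + ‖z - y₀‖ := by
            have := norm_add_le y₀ (z - y₀)
            rwa [add_sub_cancel] at this
          have := abs_nonneg R; have := norm_nonneg x₀
          linarith
        · rw [hzero z hz, sub_zero]
          linarith
  · have e : (fun p : ℂ × ℂ => (w p.1 - w p.2) ^ 2 / ‖p.1 - p.2‖ ^ (2 + 2 * s)) =
        fun p : ℂ × ℂ => (w p.1 - w p.2) ^ 2 * J s (p.1 - p.2) := by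
      funext p; exact hconv _ _
    rw [e]
    obtain ⟨I, hI⟩ : ∃ I : ℂ → ℝ, I = (tsupport w).indicator (fun _ => (1:ℝ)) := ⟨_, rfl⟩
    have hIi : Integrable I := by
      rw [hI, integrable_indicator_iff (isClosed_tsupport w).measurableSet]
      exact integrableOn_const hw.supp.isCompact.measure_lt_top.ne
    have b1 : Integrable (fun p : ℂ × ℂ => I p.2 * m (p.1 - p.2)) (volume.prod volume) := by
      have := Integrable.convolution_integrand (ContinuousLinearMap.mul ℝ ℝ) hIi hm
        (μ := volume) (ν := volume)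
      exact this
    have b2 : Integrable (fun p : ℂ × ℂ => I p.1 * m (p.1 - p.2)) (volume.prod volume) := by
      refine b1.swap.congr (Eventually.of_forall (fun p => ?_))
      simp only [Function.comp, Prod.swap]
      rw [hmd]
      simp only [J]
      rw [norm_sub_rev]
    refine ((b1.add b2).const_mul C).mono' hmeas2.aestronglyMeasurable
      (Eventually.of_forall (fun p => ?_))
    rw [Real.norm_eq_abs, abs_of_nonneg (hnn _ _)]
    simp only [Pi.add_apply]
    by_cases hp1 : p.1 ∈ tsupport w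
    · have : I p.1 = 1 := by rw [hI, indicator_of_mem hp1]
      have h2 : 0 ≤ I p.2 := by rw [hI]; exact indicator_nonneg (fun _ _ => zero_le_one) _
      have h5 := hbd2 p.1 p.2
      have h3 := mul_nonneg hC0 (mul_nonneg h2 (hmn (p.1 - p.2)))
      rw [this, one_mul, mul_add]
      linarith
    · by_cases hp2 : p.2 ∈ tsupport w
      · have : I p.2 = 1 := by rw [hI, indicator_of_mem hp2]
        have h2 : 0 ≤ I p.1 := by rw [hI]; exact indicator_nonneg (fun _ _ => zero_le_one) _
        have h5 := hbd2 p.1 p.2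
        have h3 := mul_nonneg hC0 (mul_nonneg h2 (hmn (p.1 - p.2)))
        rw [this, one_mul, mul_add]
        linarith
      · rw [image_eq_zero_of_notMem_tsupport hp1, image_eq_zero_of_notMem_tsupport hp2]
        have h2 : 0 ≤ I p.2 := by rw [hI]; exact indicator_nonneg (fun _ _ => zero_le_one) _
        have h4 : 0 ≤ I p.1 := by rw [hI]; exact indicator_nonneg (fun _ _ => zero_le_one) _
        have h3 := mul_nonneg hC0 (mul_nonneg h2 (hmn (p.1 - p.2)))
        have h5 := mul_nonneg hC0 (mul_nonneg h4 (hmn (p.1 - p.2)))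
        nlinarith

end Q66.FD.DP

namespace Q66.FD
theorem t_D : S_J → S_D := DP.t_D
end Q66.FD
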