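import Pool.Agent.Q66.FD.Stm
set_option autoImplicit false
open MeasureTheory Filter Topology Set
noncomputable section
namespace Q66.FD.K1P
open Q66.FD

lemma sqrpow (r a : ℝ) (hr : 0 ≤ r) : (r ^ 2) ^ a = r ^ (2 * a) := by
  rw [Real.rpow_mul hr]; norm_num

lemma rad1 (s : ℝ) (h0 : 0 < s) :
    IntegrableOn (fun r : ℝ => r * (r ^ (2 * s - 2) * (1 + r ^ 2) ^ (-(1 + s)))) (Ioi 0) ∧
    ∫ r in Ioi (0:ℝ), r * (r ^ (2 * s - 2) * (1 + r ^ 2) ^ (-(1 + s))) = 1 / (2 * s) := by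
  have hd : ∀ r ∈ Ioi (0:ℝ), HasDerivAt (fun r : ℝ => (r ^ 2 / (1 + r ^ 2)) ^ s / (2 * s))
      (r * (r ^ (2 * s - 2) * (1 + r ^ 2) ^ (-(1 + s)))) r := by
    intro r hr
    have hr' : 0 < r := hr
    have h1 : HasDerivAt (fun r : ℝ => r ^ 2 / (1 + r ^ 2))
        ((2 * r * (1 + r^2) - r^2 * (2 * r)) / (1 + r^2)^2) r := by
      have a : HasDerivAt (fun r : ℝ => r ^ 2) (2 * r) r := by simpa using hasDerivAt_pow 2 r
      have b : HasDerivAt (fun r : ℝ => 1 + r ^ 2) (2 * r) r := a.const_add 1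
      exact a.div b (by positivity)
    have h2 := (h1.rpow_const (p := s) (Or.inl (by positivity))).div_const (2 * s)
    refine h2.congr_deriv ?_
    have hP : (0:ℝ) < 1 + r ^ 2 := by positivity
    rw [Real.div_rpow (by positivity) hP.le, sqrpow r _ hr'.le]
    have e1 : (1 + r ^ 2) ^ (-(1 + s)) = ((1 + r ^ 2) ^ (s - 1))⁻¹ * ((1 + r ^ 2) ^ 2)⁻¹ := by
      rw [← Real.rpow_neg hP.le, ← Real.rpow_natCast (1 + r ^ 2) 2, ← Real.rpow_neg hP.le,
        ← Real.rpow_add hP]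
      congr 1; push_cast; ring
    rw [e1, show 2 * (s - 1) = 2 * s - 2 by ring]
    have : (1 + r ^ 2) ^ (s - 1) ≠ 0 := (Real.rpow_pos_of_pos hP _).ne'
    field_simp
    ring
  have hc : ContinuousWithinAt (fun r : ℝ => (r ^ 2 / (1 + r ^ 2)) ^ s / (2 * s)) (Ici 0) 0 := by
    have : Continuous (fun r : ℝ => (r ^ 2 / (1 + r ^ 2)) ^ s / (2 * s)) := by
      apply Continuous.div_const
      apply Continuous.rpow_const _ (fun _ => Or.inr h0.le)
      exact (continuous_pow 2).div (by fun_prop) (fun r => by positivity)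
    exact this.continuousWithinAt
  have hl : Tendsto (fun r : ℝ => (r ^ 2 / (1 + r ^ 2)) ^ s / (2 * s)) atTop (𝓝 (1 / (2 * s))) := by
    apply Tendsto.div_const
    have h1 : Tendsto (fun r : ℝ => r ^ 2 / (1 + r ^ 2)) atTop (𝓝 1) := by
      have : Tendsto (fun r : ℝ => 1 - (1 + r ^ 2)⁻¹) atTop (𝓝 (1 - 0)) := by
        apply Tendsto.const_sub
        apply Tendsto.inv_tendsto_atTop
        exact tendsto_atTop_add_const_left _ _ (tendsto_pow_atTop (by norm_num))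
      rw [sub_zero] at this
      refine this.congr (fun r => ?_)
      have hP : (0:ℝ) < 1 + r ^ 2 := by positivity
      field_simp; ring
    have := h1.rpow_const (p := s) (Or.inl one_ne_zero)
    simpa using this
  have hp : ∀ r ∈ Ioi (0:ℝ), 0 ≤ r * (r ^ (2 * s - 2) * (1 + r ^ 2) ^ (-(1 + s))) := by
    intro r hr
    have hr' : 0 < r := hr
    positivity
  refine ⟨integrableOn_Ioi_deriv_of_nonneg hc hd hp hl, ?_⟩
  rw [integral_Ioi_of_hasDerivAt_of_nonneg hc hd hp hl]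
  simp [Real.zero_rpow h0.ne']

lemma rad2 (s : ℝ) (h0 : 0 < s) :
    ∫ r in Ioi (0:ℝ), r * ((1 + r ^ 2) ^ (-(1 + s))) = 1 / (2 * s) := by
  have hd : ∀ r ∈ Ici (0:ℝ), HasDerivAt (fun r : ℝ => -((1 + r ^ 2) ^ (-s)) / (2 * s))
      (r * ((1 + r ^ 2) ^ (-(1 + s)))) r := by
    intro r hr
    have hP : (0:ℝ) < 1 + r ^ 2 := by positivity
    have a : HasDerivAt (fun r : ℝ => r ^ 2) (2 * r) r := by simpa using hasDerivAt_pow 2 r
    have b : HasDerivAt (fun r : ℝ => 1 + r ^ 2) (2 * r) r := a.const_add 1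
    have h2 := ((b.rpow_const (p := -s) (Or.inl hP.ne')).neg).div_const (2 * s)
    refine h2.congr_deriv ?_
    rw [show -s - 1 = -(1 + s) by ring]
    field_simp
  have hl : Tendsto (fun r : ℝ => -((1 + r ^ 2) ^ (-s)) / (2 * s)) atTop (𝓝 0) := by
    have : Tendsto (fun r : ℝ => (1 + r ^ 2) ^ (-s)) atTop (𝓝 0) := by
      refine (tendsto_rpow_neg_atTop h0).comp ?_
      exact tendsto_atTop_add_const_left _ _ (tendsto_pow_atTop (by norm_num))
    simpa using this.neg.div_const (2 * s)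
  have hp : ∀ r ∈ Ioi (0:ℝ), 0 ≤ r * ((1 + r ^ 2) ^ (-(1 + s))) := by
    intro r hr
    have hr' : 0 < r := hr
    positivity
  rw [integral_Ioi_of_hasDerivAt_of_nonneg' hd hp hl]
  simp; ring

lemma fin2 : Module.finrank ℝ ℂ = 2 := Complex.finrank_real_complex

lemma polar (s : ℝ) (h0 : 0 < s) :
    Integrable (fun z : ℂ => KK s z * Jt s 1 z) ∧ ∫ z : ℂ, KK s z * Jt s 1 z = c1 s := by
  have e : (fun z : ℂ => KK s z * Jt s 1 z) =
      fun z : ℂ => ‖z‖ ^ (2 * s - 2) * (1 + ‖z‖ ^ 2) ^ (-(1 + s)) := by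
    funext z; simp [KK, Jt]
  have e2 : (fun z : ℂ => Jt s 1 z) =
      fun z : ℂ => (1 + ‖z‖ ^ 2) ^ (-(1 + s)) := by
    funext z; simp [Jt]
  have i1 := integrable_fun_norm_addHaar (volume : Measure ℂ)
    (f := fun r : ℝ => r ^ (2 * s - 2) * (1 + r ^ 2) ^ (-(1 + s)))
  have i2 := integral_fun_norm_addHaar (volume : Measure ℂ)
    (fun r : ℝ => r ^ (2 * s - 2) * (1 + r ^ 2) ^ (-(1 + s)))
  have i3 := integral_fun_norm_addHaar (volume : Measure ℂ)
    (fun r : ℝ => (1 + r ^ 2) ^ (-(1 + s)))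
  rw [fin2] at i1 i2 i3
  simp only [smul_eq_mul, show (2 - 1 : ℕ) = 1 from rfl, pow_one] at i1 i2 i3
  have a := (rad1 s h0).2
  have b := rad2 s h0
  constructor
  · rw [e]
    exact i1.2 (rad1 s h0).1
  · rw [c1, e2, e, i2, i3, a, b]

/-- the Jacobian -/
lemma det_mul (a : ℂ) :
    ((ContinuousLinearMap.toSpanSingleton ℂ a).restrictScalars ℝ : ℂ →L[ℝ] ℂ).det = ‖a‖ ^ 2 := by
  simp [ContinuousLinearMap.det, LinearMap.det_restrictScalars,
        Algebra.norm_complex_eq, Complex.normSq_eq_norm_sq]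


lemma powid (s A Q Z P : ℝ) (hA : 0 < A) (hQ : 0 < Q) (hZ : 0 ≤ Z) (hP : 0 < P) :
    A ^ 2 / Q ^ 4 * ((Z * A / Q) ^ (2 * s - 2) * (A * P / Q ^ 2) ^ (-(1 + s))) =
      A ^ (s - 1) * (Z ^ (2 * s - 2) * P ^ (-(1 + s))) := by
  rw [Real.div_rpow (by positivity) hQ.le, Real.mul_rpow hZ hA.le,
    Real.div_rpow (by positivity) (by positivity), Real.mul_rpow hA.le hP.le, sqrpow Q _ hQ.le]
  have e1 : A ^ (s - 1) = A ^ 2 * A ^ (2 * s - 2) * A ^ (-(1 + s)) := by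
    rw [← Real.rpow_natCast A 2, ← Real.rpow_add hA, ← Real.rpow_add hA]
    congr 1; push_cast; ring
  have e2 : Q ^ 4 * Q ^ (2 * s - 2) * Q ^ (2 * (-(1 + s))) = 1 := by
    rw [← Real.rpow_natCast Q 4, ← Real.rpow_add hQ, ← Real.rpow_add hQ,
      show ((4 : ℕ) : ℝ) + (2 * s - 2) + 2 * (-(1 + s)) = 0 by push_cast; ring, Real.rpow_zero]
  have n1 : Q ^ (2 * s - 2) ≠ 0 := (Real.rpow_pos_of_pos hQ _).ne'
  have n2 : Q ^ (2 * (-(1 + s))) ≠ 0 := (Real.rpow_pos_of_pos hQ _).ne'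
  rw [e1]
  calc _ = (A ^ 2 * A ^ (2 * s - 2) * A ^ (-(1 + s)) * (Z ^ (2 * s - 2) * P ^ (-(1 + s)))) /
        (Q ^ 4 * Q ^ (2 * s - 2) * Q ^ (2 * (-(1 + s)))) := by
        field_simp
    _ = _ := by rw [e2, div_one]

/-- the change of variables -/
lemma mob (s : ℝ) (h0 : 0 < s) (x : ℂ) :
    Integrable (fun ζ : ℂ => KK s (ζ - x) * Jt s 1 ζ) ∧
    ∫ ζ : ℂ, KK s (ζ - x) * Jt s 1 ζ = (1 + ‖x‖ ^ 2) ^ (s - 1) * c1 s := by
  obtain ⟨cx, hcx⟩ : ∃ cx, cx = (starRingEnd ℂ) x := ⟨_, rfl⟩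
  obtain ⟨A, hA⟩ : ∃ A : ℝ, A = 1 + ‖x‖ ^ 2 := ⟨_, rfl⟩
  have hAp : 0 < A := by rw [hA]; positivity
  rw [← hA]
  obtain ⟨q, hq⟩ : ∃ q : ℂ → ℂ, q = fun z => 1 - cx * z := ⟨_, rfl⟩
  obtain ⟨f, hf⟩ : ∃ f : ℂ → ℂ, f = fun z => (z + x) / q z := ⟨_, rfl⟩
  obtain ⟨S, hS⟩ : ∃ S : Set ℂ, S = {z | q z ≠ 0} := ⟨_, rfl⟩
  obtain ⟨T, hT⟩ : ∃ T : Set ℂ, T = {ζ | 1 + cx * ζ ≠ 0} := ⟨_, rfl⟩
  have hxx : cx * x = ((‖x‖ ^ 2 : ℝ) : ℂ) := by
    rw [hcx, mul_comm, Complex.mul_conj, Complex.normSq_eq_norm_sq]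
  have hAc : ((A:ℝ):ℂ) = 1 + cx * x := by rw [hxx, hA]; push_cast; ring
  have hAn : (1 + cx * x : ℂ) ≠ 0 := by rw [← hAc]; exact_mod_cast hAp.ne'
  have hder : ∀ z ∈ S, HasFDerivWithinAt f
      ((ContinuousLinearMap.toSpanSingleton ℂ ((A:ℂ) / q z ^ 2)).restrictScalars ℝ) S z := by
    intro z hz
    have hz' : q z ≠ 0 := by rw [hS] at hz; exact hz
    have a : HasDerivAt (fun z : ℂ => z + x) 1 z := (hasDerivAt_id z).add_const x
    have b : HasDerivAt q (-cx) z := by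
      rw [hq]
      simpa using ((hasDerivAt_id z).const_mul cx).const_sub 1
    have c := a.div b hz'
    have d : HasDerivAt f ((A:ℂ) / q z ^ 2) z := by
      rw [hf]
      refine c.congr_deriv ?_
      rw [hAc]; simp only [hq]; ring
    exact (d.hasFDerivAt.restrictScalars ℝ).hasFDerivWithinAt
  have hinj : InjOn f S := by
    intro z hz w hw h
    have hz' : q z ≠ 0 := by rw [hS] at hz; exact hz
    have hw' : q w ≠ 0 := by rw [hS] at hw; exact hw
    simp only [hf] at h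
    rw [div_eq_div_iff hz' hw'] at h
    have : (1 + cx * x) * (z - w) = 0 := by
      simp only [hq] at h
      linear_combination h
    rcases mul_eq_zero.1 this with h | h
    · exact absurd h hAn
    · exact sub_eq_zero.1 h
  have himg : f '' S = T := by
    ext ζ
    constructor
    · rintro ⟨z, hz, rfl⟩
      have hz' : q z ≠ 0 := by rw [hS] at hz; exact hz
      have : 1 + cx * f z = (1 + cx * x) / q z := by
        simp only [hf]; field_simp; simp only [hq]; ring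
      rw [hT]
      show 1 + cx * f z ≠ 0
      rw [this]; exact div_ne_zero hAn hz'
    · intro hζ
      have hζ' : 1 + cx * ζ ≠ 0 := by rw [hT] at hζ; exact hζ
      have hqz : q ((ζ - x)/(1 + cx * ζ)) = (1 + cx * x)/(1 + cx * ζ) := by
        simp only [hq]; field_simp; ring
      refine ⟨(ζ - x)/(1 + cx * ζ), ?_, ?_⟩
      · rw [hS]
        show q _ ≠ 0
        rw [hqz]; exact div_ne_zero hAn hζ'
      · simp only [hf]
        have num : (ζ - x) / (1 + cx * ζ) + x = ζ * (1 + cx * x) / (1 + cx * ζ) := by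
          rw [div_add' _ _ _ hζ']; congr 1; ring
        rw [hqz, num, div_div_div_cancel_right₀ hζ', mul_div_assoc, div_self hAn, mul_one]
  have hSm : MeasurableSet S := by
    rw [hS]
    exact (isOpen_ne_fun (by rw [hq]; fun_prop) continuous_const).measurableSet
  have hnull : ∀ c : ℂ, volume {z : ℂ | 1 + c * z = 0} = 0 := by
    intro c
    apply Set.Subsingleton.measure_zero
    intro z hz w hw
    simp only [mem_ofPred_eq] at hz hw
    have hc : c ≠ 0 := by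
      rintro rfl; simp at hz
    have : c * (z - w) = 0 := by linear_combination hz - hw
    rcases mul_eq_zero.1 this with h | h
    · exact absurd h hc
    · exact sub_eq_zero.1 h
  have hSae : (volume : Measure ℂ).restrict S = volume := by
    rw [Measure.restrict_eq_self_of_ae_mem]
    rw [ae_iff]
    refine measure_mono_null ?_ (hnull (-cx))
    intro z hz
    simp only [hS, hq, mem_ofPred_eq, not_not] at hz ⊢
    linear_combination hz
  have hTae : (volume : Measure ℂ).restrict T = volume := by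
    rw [Measure.restrict_eq_self_of_ae_mem]
    rw [ae_iff]
    refine measure_mono_null ?_ (hnull cx)
    intro z hz
    simp only [hT, mem_ofPred_eq, not_not] at hz ⊢
    exact hz
  have hpt : ∀ z ∈ S, |((ContinuousLinearMap.toSpanSingleton ℂ
      ((A:ℂ) / q z ^ 2)).restrictScalars ℝ : ℂ →L[ℝ] ℂ).det| • (KK s (f z - x) * Jt s 1 (f z)) =
      A ^ (s - 1) * (KK s z * Jt s 1 z) := by
    intro z hz
    have hz' : q z ≠ 0 := by rw [hS] at hz; exact hz
    have hQ : 0 < ‖q z‖ := norm_pos_iff.2 hz'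
    rw [det_mul, abs_of_nonneg (by positivity), smul_eq_mul]
    have e1 : ‖(A:ℂ) / q z ^ 2‖ ^ 2 = A ^ 2 / ‖q z‖ ^ 4 := by
      rw [norm_div, norm_pow, Complex.norm_real, Real.norm_eq_abs, abs_of_pos hAp, div_pow]
      ring
    have e2 : ‖f z - x‖ = ‖z‖ * A / ‖q z‖ := by
      have : f z - x = z * (A : ℂ) / q z := by
        rw [hAc]; simp only [hf]; field_simp; simp only [hq]; ring
      rw [this, norm_div, norm_mul, Complex.norm_real, Real.norm_eq_abs, abs_of_pos hAp]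
    have e3 : 1 ^ 2 + ‖f z‖ ^ 2 = A * (1 + ‖z‖ ^ 2) / ‖q z‖ ^ 2 := by
      have e4 : ‖q z‖ ^ 2 + ‖z + x‖ ^ 2 = A * (1 + ‖z‖ ^ 2) := by
        rw [hA]
        simp only [Complex.sq_norm, Complex.normSq_apply, hq, hcx]
        simp
        ring
      rw [← e4]
      simp only [hf, norm_div]
      field_simp
    rw [e1, KK, Jt, e2, e3, powid s A _ _ _ hAp hQ (norm_nonneg _) (by positivity)]
    simp [KK, Jt]
  have hP := polar s h0
  constructor
  · rw [← integrableOn_univ]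
    have h1 := (integrableOn_image_iff_integrableOn_abs_det_fderiv_smul (volume : Measure ℂ)
      hSm hder hinj (fun ζ : ℂ => KK s (ζ - x) * Jt s 1 ζ)).2 ?_
    · rw [himg, IntegrableOn, hTae] at h1
      rw [integrableOn_univ]
      exact h1
    · rw [integrableOn_congr_fun hpt hSm]
      exact (hP.1.const_mul _).integrableOn
  · have h1 := integral_image_eq_integral_abs_det_fderiv_smul (volume : Measure ℂ)
      hSm hder hinj (fun ζ : ℂ => KK s (ζ - x) * Jt s 1 ζ)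
    rw [himg, hTae, setIntegral_congr_fun hSm hpt, hSae, integral_const_mul, hP.2] at h1
    exact h1


theorem t_K1 : S_J → S_K1 := by
  intro _ s h0 h1 t ht x
  have hsub : ∀ t : ℝ, 0 < t → ∀ z : ℂ, Jt s t z = t ^ (-(2 + 2 * s)) * Jt s 1 ((t:ℂ)⁻¹ * z) := by
    intro t ht z
    simp only [Jt]
    have : t ^ 2 + ‖z‖ ^ 2 = t ^ 2 * (1 ^ 2 + ‖(t:ℂ)⁻¹ * z‖ ^ 2) := by
      rw [norm_mul, norm_inv, Complex.norm_real, Real.norm_eq_abs, abs_of_pos ht]
      field_simp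
    rw [this, Real.mul_rpow (by positivity) (by positivity), sqrpow t _ ht.le]
    congr 2; ring
  have hK : ∀ z : ℂ, KK s (x + z) = t ^ (2 * s - 2) * KK s ((t:ℂ)⁻¹ * x + (t:ℂ)⁻¹ * z) := by
    intro z
    simp only [KK]
    have : ‖x + z‖ = t * ‖(t:ℂ)⁻¹ * x + (t:ℂ)⁻¹ * z‖ := by
      rw [← mul_add, norm_mul, norm_inv, Complex.norm_real, Real.norm_eq_abs, abs_of_pos ht]
      field_simp
    rw [this, Real.mul_rpow ht.le (norm_nonneg _)]
  have hm := mob s h0 (-((t:ℂ)⁻¹ * x))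
  have e : (fun z : ℂ => KK s (x + z) * Jt s t z) = fun z : ℂ => (t ^ (2 * s - 2) *
      t ^ (-(2 + 2 * s))) * (fun ζ : ℂ => KK s (ζ - (-((t:ℂ)⁻¹ * x))) * Jt s 1 ζ) ((t⁻¹ : ℝ) • z) := by
    funext z
    rw [hK, hsub t ht z]
    have : (t⁻¹ : ℝ) • z = (t:ℂ)⁻¹ * z := by
      rw [Complex.real_smul]; push_cast; rfl
    simp only [this]
    rw [show (t:ℂ)⁻¹ * z - (-((t:ℂ)⁻¹ * x)) = (t:ℂ)⁻¹ * x + (t:ℂ)⁻¹ * z by ring]
    ring
  have hti : (t⁻¹ : ℝ) ≠ 0 := inv_ne_zero ht.ne'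
  have hsc : ∀ F : ℂ → ℝ, ∫ z, F ((t⁻¹ : ℝ) • z) = t ^ 2 * ∫ z, F z := by
    intro F
    rw [Measure.integral_comp_smul, fin2, smul_eq_mul]
    congr 1
    rw [abs_of_pos (by positivity)]
    field_simp
  refine ⟨?_, ?_, ?_⟩
  · rw [e]
    apply Integrable.const_mul
    exact (integrable_comp_smul_iff volume _ hti).2 hm.1
  · have : (fun z : ℂ => Jt s t z) = fun z : ℂ => t ^ (-(2 + 2 * s)) *
        (fun z => Jt s 1 z) ((t⁻¹ : ℝ) • z) := by
      funext z
      rw [hsub t ht z]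
      congr 2
      rw [Complex.real_smul]; push_cast; rfl
    rw [this, integral_const_mul, hsc, ← mul_assoc, ← c1, mul_comm (c1 s)]
    congr 1
    rw [← Real.rpow_natCast t 2, ← Real.rpow_add ht]
    congr 1; push_cast; ring
  · have h3 := hsc (fun ζ : ℂ => KK s (ζ - (-((t:ℂ)⁻¹ * x))) * Jt s 1 ζ)
    rw [e, integral_const_mul, h3, hm.2]
    have : t ^ 2 + ‖x‖ ^ 2 = t ^ 2 * (1 + ‖-((t:ℂ)⁻¹ * x)‖ ^ 2) := by
      rw [norm_neg, norm_mul, norm_inv, Complex.norm_real, Real.norm_eq_abs, abs_of_pos ht]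
      field_simp
    rw [this, Real.mul_rpow (by positivity) (by positivity), sqrpow t _ ht.le,
      show 2 * (s - 1) = 2 * s - 2 by ring]
    have e2 : t ^ (-(2 + 2 * s)) * t ^ 2 = t ^ (-(2 * s)) := by
      rw [← Real.rpow_natCast t 2, ← Real.rpow_add ht]
      congr 1; push_cast; ring
    rw [← e2]; ring

end Q66.FD.K1P

namespace Q66.FD
theorem t_K1 : S_J → S_K1 := K1P.t_K1
end Q66.FD
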