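import Pool.Agent.Q66.FD.C
set_option autoImplicit false
open MeasureTheory Filter Topology Set
noncomputable section
namespace Q66.FD.K4P
open Q66.FD

lemma bd_int {ρ : ℂ → ℝ} (h : Bd ρ) : Integrable ρ := by
  obtain ⟨M, hM⟩ := h.bdd
  obtain ⟨R, hR⟩ := h.supp
  have h1 : IntegrableOn (fun _ : ℂ => M) (Metric.closedBall 0 R) :=
    integrableOn_const (measure_closedBall_lt_top (x := (0:ℂ)) (r := R)).ne
  have h2 : Integrable ((Metric.closedBall (0:ℂ) R).indicator (fun _ : ℂ => M)) :=
    (integrable_indicator_iff Metric.isClosed_closedBall.measurableSet).2 h1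
  refine h2.mono' h.meas.aestronglyMeasurable (Eventually.of_forall (fun x => ?_))
  simp only [indicator, Metric.mem_closedBall, dist_zero_right]
  split_ifs with hx
  · exact hM x
  · rw [hR x (not_le.1 hx)]; simp

lemma kt_neg (s t : ℝ) (x : ℂ) : kt s t (-x) = kt s t x := by
  unfold kt; rw [norm_neg]

lemma kt_meas (s t : ℝ) : Measurable (kt s t) := by
  unfold kt
  apply Measurable.mul measurable_const
  apply Measurable.sub
  · exact measurable_norm.pow_const _
  · exact (measurable_const.add (measurable_norm.pow_const 2)).pow_const _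

lemma KK_meas (s : ℝ) : Measurable (KK s) := by
  unfold KK
  exact measurable_norm.pow_const _

theorem p1 (hJ : S_J) (hK1 : S_K1) (hK2 : S_K2) (hK3 : S_K3) (s : ℝ) (h0 : 0 < s) (h1 : s < 1)
    (ρ : ℂ → ℝ) (hρ : Bd ρ) (t : ℝ) (ht : 0 < t) (x : ℂ) :
    Integrable (fun y => kt s t (x - y) * ρ y) ∧
    Lt s t (pot s ρ) x = ∫ y : ℂ, kt s t (x - y) * ρ y := by
  obtain ⟨M, hM⟩ := hρ.bdd
  obtain ⟨hk1, hk2, hk3, hk4⟩ := hK2 s h0 h1
  obtain ⟨hp1, hp2, B, hp3⟩ := hK3 s h0 h1 ρ hρ
  have hJt := (hJ s h0 h1).1 t ht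
  have hi : Integrable (fun y => kt s t (x - y) * ρ y) :=
    ((hk3 t ht).comp_sub_left x).mul_bdd (c := M) hρ.meas.aestronglyMeasurable
      (Eventually.of_forall hM)
  refine ⟨hi, ?_⟩
  have hρi := bd_int hρ
  -- the product
  have hprod : Integrable (fun p : ℂ × ℂ => KK s (x + p.1 - p.2) * ρ p.2 * Jt s t p.1)
      (volume.prod volume) := by
    have hm : Measurable (fun p : ℂ × ℂ => KK s (x + p.1 - p.2) * ρ p.2 * Jt s t p.1) :=
      (((KK_meas s).comp (by fun_prop)).mul (hρ.meas.comp measurable_snd)).mul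
        ((Jt_cont s ht).measurable.comp measurable_fst)
    rw [integrable_prod_iff' hm.aestronglyMeasurable]
    have hbase : ∀ y : ℂ, (fun z => KK s (x + z - y) * ρ y * Jt s t z) =
        fun z => ρ y * (KK s ((x - y) + z) * Jt s t z) := by
      intro y; funext z
      rw [show x + z - y = (x - y) + z by ring]; ring
    constructor
    · refine Eventually.of_forall (fun y => ?_)
      simp only
      rw [hbase y]
      exact (hK1 s h0 h1 t ht (x - y)).1.const_mul _
    · have e : (fun y : ℂ => ∫ z : ℂ, ‖KK s (x + z - y) * ρ y * Jt s t z‖) =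
          fun y => (c1 s * t ^ (-(2 * s)) * (t ^ 2 + ‖x - y‖ ^ 2) ^ (s - 1)) * |ρ y| := by
        funext y
        have e2 : (fun z : ℂ => ‖KK s (x + z - y) * ρ y * Jt s t z‖) =
            fun z => |ρ y| * (KK s ((x - y) + z) * Jt s t z) := by
          funext z
          have a1 : 0 ≤ KK s ((x - y) + z) := by unfold KK; positivity
          have a2 : 0 ≤ Jt s t z := by unfold Jt; positivity
          rw [show x + z - y = (x - y) + z by ring, Real.norm_eq_abs, abs_mul, abs_mul,
            abs_of_nonneg a1, abs_of_nonneg a2]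
          ring
        rw [e2, integral_const_mul, (hK1 s h0 h1 t ht (x - y)).2.2]
        ring
      simp only
      rw [e]
      have hpos : ∀ y : ℂ, 0 < t ^ 2 + ‖x - y‖ ^ 2 := fun y => by positivity
      refine hρi.abs.bdd_mul (c := |c1 s * t ^ (-(2 * s))| * (t ^ 2) ^ (s - 1)) ?_ ?_
      · apply Continuous.aestronglyMeasurable
        apply Continuous.mul continuous_const
        exact Continuous.rpow_const (by fun_prop) (fun y => Or.inl (hpos y).ne')
      · refine Eventually.of_forall (fun y => ?_)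
        rw [norm_mul, Real.norm_eq_abs, Real.norm_eq_abs,
          abs_of_nonneg (Real.rpow_nonneg (hpos y).le _)]
        apply mul_le_mul_of_nonneg_left _ (abs_nonneg _)
        apply Real.rpow_le_rpow_of_nonpos (by positivity) (by nlinarith [sq_nonneg ‖x - y‖])
          (by linarith)
  -- the computation
  have e1 : ∫ z, pot s ρ (x + z) * Jt s t z =
      ∫ y, ρ y * (c1 s * t ^ (-(2 * s)) * (t ^ 2 + ‖x - y‖ ^ 2) ^ (s - 1)) := by
    have a1 : ∀ z, pot s ρ (x + z) * Jt s t z =
        ∫ y, KK s (x + z - y) * ρ y * Jt s t z := by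
      intro z; rw [integral_mul_const]; rfl
    simp_rw [a1]
    rw [integral_integral_swap hprod]
    congr 1
    funext y
    have e2 : (fun z : ℂ => KK s (x + z - y) * ρ y * Jt s t z) =
        fun z => ρ y * (KK s ((x - y) + z) * Jt s t z) := by
      funext z
      rw [show x + z - y = (x - y) + z by ring]
      ring
    rw [e2, integral_const_mul, (hK1 s h0 h1 t ht (x - y)).2.2]
  have hi1 : Integrable (fun z => pot s ρ x * Jt s t z) := hJt.const_mul _
  have hi2 : Integrable (fun z => pot s ρ (x + z) * Jt s t z) :=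
    hJt.bdd_mul (c := B) (hp2.comp (by fun_prop)).aestronglyMeasurable
      (Eventually.of_forall (fun z => hp3 _))
  have hi3 : Integrable (fun y => (KK s (x - y) * ρ y) * (c1 s * t ^ (-(2 * s)))) :=
    (hp1 x).mul_const _
  have hi4 : Integrable (fun y =>
      ρ y * (c1 s * t ^ (-(2 * s)) * (t ^ 2 + ‖x - y‖ ^ 2) ^ (s - 1))) := by
    have : (fun y => ρ y * (c1 s * t ^ (-(2 * s)) * (t ^ 2 + ‖x - y‖ ^ 2) ^ (s - 1))) =
      fun y => (KK s (x - y) * ρ y) * (c1 s * t ^ (-(2 * s))) - kt s t (x - y) * ρ y := by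
      funext y; simp only [kt, KK]; ring
    rw [this]
    exact hi3.sub hi
  unfold Lt
  have e3 : (fun z => (pot s ρ x - pot s ρ (x + z)) * Jt s t z) =
      fun z => pot s ρ x * Jt s t z - pot s ρ (x + z) * Jt s t z := by
    funext z; ring
  rw [e3, integral_sub hi1 hi2, e1, integral_const_mul, (hK1 s h0 h1 t ht x).2.1]
  have e4 : pot s ρ x * (c1 s * t ^ (-(2 * s))) =
      ∫ y, (KK s (x - y) * ρ y) * (c1 s * t ^ (-(2 * s))) := by
    rw [integral_mul_const]; rfl
  rw [e4, ← integral_sub hi3 hi4]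
  congr 1
  funext y
  simp only [kt, KK]; ring

lemma kt_nn (hK2 : S_K2) (s : ℝ) (h0 : 0 < s) (h1 : s < 1) (t : ℝ) (ht : 0 < t) :
    ∀ᵐ x : ℂ, 0 ≤ kt s t x := by
  have hne : ∀ᵐ z : ℂ, z ≠ 0 := by
    rw [ae_iff]; simp
  filter_upwards [hne] with z hz
  exact ((hK2 s h0 h1).1 t ht z hz).le

lemma kt_total (hK2 : S_K2) (s : ℝ) (h0 : 0 < s) (h1 : s < 1) (t : ℝ) (ht : 0 < t) :
    ∫ x, |kt s t x| = C0 s := by
  have e : ∫ x, |kt s t x| = ∫ x, kt s t x := by
    apply integral_congr_ae
    filter_upwards [kt_nn hK2 s h0 h1 t ht] with x hx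
    exact abs_of_nonneg hx
  rw [e, C0]
  have h2 := Measure.integral_comp_smul (volume : Measure ℂ) (kt s t) t
  have h3 : (fun x : ℂ => kt s t (t • x)) = fun x => (t ^ 2)⁻¹ * kt s 1 x := by
    funext x
    rw [Complex.real_smul, (hK2 s h0 h1).2.1 t ht x]
  rw [h3, integral_const_mul, Complex.finrank_real_complex, smul_eq_mul,
    abs_of_pos (by positivity)] at h2
  have : (t ^ 2)⁻¹ ≠ 0 := by positivity
  exact (mul_left_cancel₀ this h2).symm

theorem p2 (hK2 : S_K2) (s : ℝ) (h0 : 0 < s) (h1 : s < 1) (ρ : ℂ → ℝ) (hρ : Continuous ρ)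
    (hc : HasCompactSupport ρ) (x : ℂ) :
    Tendsto (fun t => ∫ y : ℂ, kt s t (x - y) * ρ y) (𝓝[>] 0) (𝓝 (C0 s * ρ x)) := by
  obtain ⟨M, hM⟩ := hρ.bounded_above_of_compact_support hc
  obtain ⟨hk1, hk2, hk3, hk4⟩ := hK2 s h0 h1
  have e : ∀ t : ℝ, 0 < t → ∫ y : ℂ, kt s t (x - y) * ρ y =
      ∫ z : ℂ, kt s 1 z * ρ (x - t • z) := by
    intro t ht
    have a1 := integral_sub_left_eq_self (fun y => kt s t (x - y) * ρ y) (volume : Measure ℂ) x
    simp only [sub_sub_cancel] at a1
    rw [← a1]
    have h2 := Measure.integral_comp_smul (volume : Measure ℂ) (fun y => kt s t y * ρ (x - y)) t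
    have h3 : (fun z : ℂ => kt s t (t • z) * ρ (x - t • z)) =
        fun z => (t ^ 2)⁻¹ * (kt s 1 z * ρ (x - t • z)) := by
      funext z
      rw [Complex.real_smul, hk2 t ht z]; ring
    rw [h3, integral_const_mul, Complex.finrank_real_complex, smul_eq_mul,
      abs_of_pos (by positivity)] at h2
    have : (t ^ 2)⁻¹ ≠ 0 := by positivity
    exact (mul_left_cancel₀ this h2).symm
  have hlim : Tendsto (fun t : ℝ => ∫ z : ℂ, kt s 1 z * ρ (x - t • z)) (𝓝[>] 0)
      (𝓝 (∫ z : ℂ, kt s 1 z * ρ x)) := by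
    apply tendsto_integral_filter_of_dominated_convergence (fun z => |kt s 1 z| * M)
    · refine Eventually.of_forall (fun t => ?_)
      exact ((kt_meas s 1).mul (hρ.measurable.comp (by fun_prop))).aestronglyMeasurable
    · refine Eventually.of_forall (fun t => Eventually.of_forall (fun z => ?_))
      rw [norm_mul, Real.norm_eq_abs]
      exact mul_le_mul_of_nonneg_left (hM _) (abs_nonneg _)
    · exact (hk3 1 one_pos).abs.mul_const _
    · refine Eventually.of_forall (fun z => ?_)
      apply Tendsto.const_mul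
      have : Continuous (fun t : ℝ => ρ (x - t • z)) := by fun_prop
      have h2 := this.tendsto 0
      simp only [zero_smul, sub_zero] at h2
      exact h2.mono_left nhdsWithin_le_nhds
  rw [integral_mul_const] at hlim
  refine hlim.congr' ?_
  filter_upwards [self_mem_nhdsWithin] with t ht
  exact (e t ht).symm


theorem t_K4 : S_J → S_PROD → S_SYM → S_K1 → S_K2 → S_K3 → S_K4 := by
  intro hJ hP hY hK1 hK2 hK3 s h0 h1
  refine ⟨fun ρ hρ t ht x => p1 hJ hK1 hK2 hK3 s h0 h1 ρ hρ t ht x,
    fun ρ hρ hc x => p2 hK2 s h0 h1 ρ hρ hc x, ?_⟩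
  intro ρ hρ w hw
  obtain ⟨hk1, hk2, hk3, hk4⟩ := hK2 s h0 h1
  obtain ⟨hp1, hp2, B, hp3⟩ := hK3 s h0 h1 ρ hρ
  have hρi := bd_int hρ
  have hwc : Continuous w := hw.diff.continuous
  have hwi : Integrable w := hwc.integrable_of_hasCompactSupport hw.supp
  obtain ⟨W, hW⟩ := hwc.bounded_above_of_compact_support hw.supp
  obtain ⟨hY1, hY2⟩ := hY s h0 h1 w hw (pot s ρ) B hp2.measurable hp3
  have e : ∀ t : ℝ, 0 < t → ∫ x, pot s ρ x * Lt s t w x =
      ∫ y, ρ y * ∫ x : ℂ, kt s t (y - x) * w x := by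
    intro t ht
    rw [← hY1 t ht]
    have a1 : ∀ x, w x * Lt s t (pot s ρ) x = ∫ y, w x * (kt s t (x - y) * ρ y) := by
      intro x
      rw [(p1 hJ hK1 hK2 hK3 s h0 h1 ρ hρ t ht x).2, integral_const_mul]
    simp_rw [a1]
    have hprod : Integrable (fun p : ℂ × ℂ => w p.1 * (kt s t (p.1 - p.2) * ρ p.2))
        (volume.prod volume) := by
      have b1 := Integrable.convolution_integrand (ContinuousLinearMap.mul ℝ ℝ) hρi (hk3 t ht)
        (μ := volume) (ν := volume)
      have b2 : Integrable (fun p : ℂ × ℂ => kt s t (p.1 - p.2) * ρ p.2)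
          (volume.prod volume) := by
        refine b1.congr (Eventually.of_forall (fun p => ?_))
        simp [mul_comm]
      exact b2.bdd_mul (c := W) (hwc.comp continuous_fst).aestronglyMeasurable
        (Eventually.of_forall (fun p => hW _))
    rw [integral_integral_swap hprod]
    congr 1
    funext y
    rw [← integral_const_mul]
    congr 1
    funext x
    rw [← kt_neg s t (x - y), neg_sub]
    ring
  have hlim : Tendsto (fun t : ℝ => ∫ y, ρ y * ∫ x : ℂ, kt s t (y - x) * w x) (𝓝[>] 0)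
      (𝓝 (∫ y, ρ y * (C0 s * w y))) := by
    apply tendsto_integral_filter_of_dominated_convergence (fun y => |ρ y| * (C0 s * W))
    · refine Eventually.of_forall (fun t => ?_)
      apply (hρ.meas.aestronglyMeasurable).mul
      have hm : Measurable (fun p : ℂ × ℂ => kt s t (p.1 - p.2) * w p.2) :=
        ((kt_meas s t).comp (by fun_prop)).mul (hwc.measurable.comp measurable_snd)
      exact (hm.stronglyMeasurable.integral_prod_right').aestronglyMeasurable
    · filter_upwards [self_mem_nhdsWithin] with t ht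
      refine Eventually.of_forall (fun y => ?_)
      rw [norm_mul, Real.norm_eq_abs]
      apply mul_le_mul_of_nonneg_left _ (abs_nonneg _)
      have hk : Integrable (fun x => |kt s t (y - x)| * W) :=
        ((hk3 t ht).abs.comp_sub_left y).mul_const W
      calc ‖∫ x : ℂ, kt s t (y - x) * w x‖ ≤ ∫ x : ℂ, |kt s t (y - x)| * W := by
            apply norm_integral_le_of_norm_le hk
            refine Eventually.of_forall (fun x => ?_)
            rw [norm_mul, Real.norm_eq_abs]
            exact mul_le_mul_of_nonneg_left (hW x) (abs_nonneg _)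
        _ = C0 s * W := by
            rw [integral_mul_const, integral_sub_left_eq_self (fun x => |kt s t x|) volume y,
              kt_total hK2 s h0 h1 t ht]
    · exact hρi.abs.mul_const _
    · refine Eventually.of_forall (fun y => ?_)
      exact (p2 hK2 s h0 h1 w hwc hw.supp y).const_mul _
  have h3 : Tendsto (fun t : ℝ => ∫ x, pot s ρ x * Lt s t w x) (𝓝[>] 0)
      (𝓝 (∫ y, ρ y * (C0 s * w y))) := by
    refine hlim.congr' ?_
    filter_upwards [self_mem_nhdsWithin] with t ht
    exact (e t ht).symm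
  rw [tendsto_nhds_unique hY2 h3, ← integral_const_mul]
  congr 1
  funext y
  ring

end Q66.FD.K4P

namespace Q66.FD
theorem t_K4 : S_J → S_PROD → S_SYM → S_K1 → S_K2 → S_K3 → S_K4 := K4P.t_K4
end Q66.FD
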