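import Pool.Agent.Q66.FD.K4
set_option autoImplicit false
open MeasureTheory Filter Topology Set
noncomputable section
namespace Q66.FD.MajP
open Q66.FD

theorem t_MAJ : S_MAJ := by
  intro Ω g M η hΩ hb hm hM hg hη
  obtain ⟨f, hf⟩ : ∃ f : ℂ → ℝ, f = Ω.indicator g := ⟨_, rfl⟩
  obtain ⟨R₁, hR₁⟩ := hb.subset_closedBall 0
  obtain ⟨R, hR⟩ : ∃ R : ℝ, R = max R₁ 0 := ⟨_, rfl⟩
  have hR0 : 0 ≤ R := by rw [hR]; exact le_max_right _ _
  have hΩR : ∀ x ∈ Ω, ‖x‖ ≤ R := by
    intro x hx
    have := hR₁ hx
    rw [mem_closedBall_zero_iff] at this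
    rw [hR]; exact this.trans (le_max_left _ _)
  have hfM : ∀ x, |f x| ≤ M := by
    intro x
    rw [hf]
    by_cases hx : x ∈ Ω
    · rw [indicator_of_mem hx]; exact hg x hx
    · rw [indicator_of_notMem hx]; simpa using hM
  have hfB : Bd f := by
    refine ⟨by rw [hf]; exact hm, ⟨M, hfM⟩, ⟨R, fun x hx => ?_⟩⟩
    rw [hf, indicator_of_notMem]
    intro h
    exact absurd (hΩR x h) (not_le.2 hx)
  have hfi : Integrable f := K4P.bd_int hfB
  obtain ⟨G, hG1, hG2, hG3, hG4, hG5⟩ := exists_lt_lowerSemicontinuous_integral_lt f hfi hη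
  obtain ⟨h, hh⟩ : ∃ h : ℂ → ℝ, h = fun x => (min (G x) ((M + 1 : ℝ) : EReal)).toReal := ⟨_, rfl⟩
  have hco : ∀ x, ((h x : ℝ) : EReal) = min (G x) ((M + 1 : ℝ) : EReal) := by
    intro x
    rw [hh]
    apply EReal.coe_toReal
    · intro h1
      have : min (G x) ((M + 1 : ℝ) : EReal) ≤ ((M + 1 : ℝ) : EReal) := min_le_right _ _
      rw [h1] at this
      exact absurd this (not_le.2 (EReal.coe_lt_top _))
    · intro h1
      have h2 : (⊥ : EReal) < min (G x) ((M + 1 : ℝ) : EReal) :=
        lt_min (lt_of_le_of_lt bot_le (hG1 x)) (EReal.bot_lt_coe _)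
      rw [h1] at h2
      exact absurd h2 (lt_irrefl _)
  have hlt : ∀ x, f x < h x := by
    intro x
    rw [← EReal.coe_lt_coe_iff, hco]
    refine lt_min (hG1 x) ?_
    rw [EReal.coe_lt_coe_iff]
    have := (abs_le.1 (hfM x)).2
    linarith
  have hle : ∀ x, h x ≤ M + 1 := by
    intro x
    rw [← EReal.coe_le_coe_iff, hco]
    exact min_le_right _ _
  have hge : ∀ x, -M < h x := fun x => lt_of_le_of_lt (abs_le.1 (hfM x)).1 (hlt x)
  have hmeas : Measurable h := by
    rw [hh]
    exact (hG2.measurable.min measurable_const).ereal_toReal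
  have habs : ∀ x, |h x| ≤ M + 1 := by
    intro x
    rw [abs_le]
    constructor
    · linarith [hge x]
    · exact hle x
  have hρB : Bd (Ω.indicator h) := by
    refine ⟨hmeas.indicator hΩ.measurableSet, ⟨M + 1, fun x => ?_⟩, ⟨R, fun x hx => ?_⟩⟩
    · by_cases hx : x ∈ Ω
      · rw [indicator_of_mem hx]; exact habs x
      · rw [indicator_of_notMem hx]; simp; linarith
    · rw [indicator_of_notMem]
      intro h
      exact absurd (hΩR x h) (not_le.2 hx)
  refine ⟨Ω.indicator h, hρB, fun x hx => indicator_of_notMem hx _, fun x hx => ?_, ?_, ?_⟩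
  · rw [indicator_of_mem hx]
    have := hlt x
    rwa [hf, indicator_of_mem hx] at this
  · have e1 : ∫ x in Ω, (Ω.indicator h x - g x) = ∫ x in Ω, (Ω.indicator h x - f x) := by
      apply setIntegral_congr_fun hΩ.measurableSet
      intro x hx
      simp only [hf, indicator_of_mem hx]
    rw [e1]
    have hi1 : Integrable (fun x => Ω.indicator h x - f x) := (K4P.bd_int hρB).sub hfi
    have hi2 : Integrable (fun x => (G x).toReal - f x) := hG3.sub hfi
    have hae : ∀ᵐ x : ℂ, h x ≤ (G x).toReal := by
      filter_upwards [hG4] with x hx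
      rw [← EReal.coe_le_coe_iff, hco, EReal.coe_toReal hx.ne
        (lt_of_le_of_lt bot_le (hG1 x)).ne']
      exact min_le_left _ _
    calc ∫ x in Ω, (Ω.indicator h x - f x) ≤ ∫ x in Ω, ((G x).toReal - f x) := by
          apply setIntegral_mono_ae hi1.integrableOn hi2.integrableOn
          filter_upwards [hae] with x hx
          by_cases hxΩ : x ∈ Ω
          · rw [indicator_of_mem hxΩ]
            linarith
          · rw [indicator_of_notMem hxΩ]
            have h0 : f x = 0 := by rw [hf, indicator_of_notMem hxΩ]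
            have := hlt x
            linarith
      _ ≤ ∫ x, ((G x).toReal - f x) := by
          apply setIntegral_le_integral hi2
          filter_upwards [hae] with x hx
          have := hlt x
          simp only [Pi.zero_apply]
          linarith
      _ ≤ η := by
          rw [integral_sub hG3 hfi]
          linarith
  · intro y hy
    have hgy : g y < h y := by
      have := hlt y
      rwa [hf, indicator_of_mem hy] at this
    obtain ⟨τ, hτ1, hτ2⟩ := exists_between hgy
    have hτG : (τ : EReal) < G y := by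
      have h1 : ((τ : ℝ) : EReal) < ((h y : ℝ) : EReal) := EReal.coe_lt_coe_iff.2 hτ2
      rw [hco] at h1
      exact lt_of_lt_of_le h1 (min_le_left _ _)
    have hev : ∀ᶠ x in 𝓝 y, (τ : EReal) < G x := hG2.lowerSemicontinuousAt y _ hτG
    have hev2 : ∀ᶠ x in 𝓝 y, x ∈ Ω ∧ (τ : EReal) < G x := (hΩ.eventually_mem hy).and hev
    obtain ⟨r, hr, hrb⟩ := Metric.eventually_nhds_iff.1 hev2
    have hτM : τ < M + 1 := lt_of_lt_of_le hτ2 (hle y)
    have hτM2 : -M ≤ τ := ((abs_le.1 (hg y hy)).1.trans hτ1.le)
    have hin : ∀ x, ‖x - y‖ < r → x ∈ Ω ∧ τ < h x := by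
      intro x hx
      have h1 := hrb (by rw [dist_eq_norm]; exact hx)
      refine ⟨h1.1, ?_⟩
      rw [← EReal.coe_lt_coe_iff, hco]
      exact lt_min h1.2 (EReal.coe_lt_coe_iff.2 hτM)
    refine ⟨fun x => -(M + 1) * max 0 (min 1 (R + 1 - ‖x‖)) + (τ + M + 1) * max 0 (1 - ‖x - y‖ / r),
      by fun_prop, ?_, ?_, ?_⟩
    · apply HasCompactSupport.intro (isCompact_closedBall (0:ℂ) (R + 1))
      intro x hx
      rw [mem_closedBall_zero_iff, not_le] at hx
      have h1 : max 0 (min 1 (R + 1 - ‖x‖)) = 0 := max_eq_left (min_le_of_right_le (by linarith))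
      have h2 : max 0 (1 - ‖x - y‖ / r) = 0 := by
        apply max_eq_left
        by_contra hc
        push Not at hc
        have : ‖x - y‖ / r < 1 := by linarith
        rw [div_lt_one hr] at this
        have := hΩR x (hin x this).1
        linarith
      rw [h1, h2]; ring
    · intro x
      simp only
      by_cases hx : x ∈ Ω
      · rw [indicator_of_mem hx]
        have h1 : max 0 (min 1 (R + 1 - ‖x‖)) = 1 := by
          have := hΩR x hx
          rw [min_eq_left (by linarith)]; simp
        rw [h1]
        by_cases hxr : ‖x - y‖ < r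
        · have h2 := (hin x hxr).2
          have h3 : max 0 (1 - ‖x - y‖ / r) ≤ 1 := by
            apply max_le zero_le_one
            have : 0 ≤ ‖x - y‖ / r := by positivity
            linarith
          nlinarith
        · have h2 : max 0 (1 - ‖x - y‖ / r) = 0 := by
            apply max_eq_left
            have : 1 ≤ ‖x - y‖ / r := by rw [one_le_div hr]; exact not_lt.1 hxr
            linarith
          rw [h2]
          have := hge x
          linarith
      · rw [indicator_of_notMem hx]
        have h2 : max 0 (1 - ‖x - y‖ / r) = 0 := by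
          apply max_eq_left
          by_contra hc
          push Not at hc
          have : ‖x - y‖ / r < 1 := by linarith
          rw [div_lt_one hr] at this
          exact hx (hin x this).1
        rw [h2]
        have : 0 ≤ max 0 (min 1 (R + 1 - ‖x‖)) := le_max_left _ _
        nlinarith
    · have h1 : max 0 (min 1 (R + 1 - ‖y‖)) = 1 := by
        have := hΩR y hy
        rw [min_eq_left (by linarith)]; simp
      simp only
      rw [h1]
      simp
      linarith

end Q66.FD.MajP

namespace Q66.FD
theorem t_MAJ : S_MAJ := MajP.t_MAJ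
end Q66.FD
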