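import Mathlib

/-!
# Project FD (helper66): non-uniqueness for the fractional Dirichlet problem with nonlocal gradient
squares (MP_c7f95f_an, full answer NO)

Idea. For a bump function `w` in `Ω` the function `𝔻_s²(w)` is bounded below by a positive constant, so
`μ = ((-Δ)^s w - c w) / 𝔻_s²(w)` is bounded, and `0` and `w` both solve the problem with `f = 0`. The
point is the weak formulation against ALL continuous `φ` whose principal value `(-Δ)^s φ` exists and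
is bounded at every point (a theorem of the type of Schwarz for generalised second derivatives); it is
proved with sup-convolutions and with an explicit kernel. We work in the plane, `N = 2`, identified
with `ℂ`.

Every `S_XXX` below is one lemma job; the docstring contains the complete proof.
-/

set_option autoImplicit false

open MeasureTheory Filter Topology Set

noncomputable section

namespace Q66.FD

/-! ## The problem -/

/-- the normalising constant `a_{2,s}` -/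
def aC (s : ℝ) : ℝ := (∫ ξ : ℂ, (1 - Real.cos ξ.re) / ‖ξ‖ ^ (2 + 2 * s))⁻¹

/-- `(-Δ)^s u (x) = l`, as a principal value -/
def FracLap (s : ℝ) (u : ℂ → ℝ) (x : ℂ) (l : ℝ) : Prop :=
  Tendsto (fun ε : ℝ => aC s *
    ∫ z in {z : ℂ | ε < ‖z - x‖}, (u x - u z) / ‖x - z‖ ^ (2 + 2 * s)) (𝓝[>] 0) (𝓝 l)

/-- `𝔻_s²(u)(x) = l` -/
def GradSq (s : ℝ) (u : ℂ → ℝ) (x : ℂ) (l : ℝ) : Prop :=
  Tendsto (fun ε : ℝ => aC s / 2 *
    ∫ z in {z : ℂ | ε < ‖z - x‖}, (u x - u z) ^ 2 / ‖x - z‖ ^ (2 + 2 * s)) (𝓝[>] 0) (𝓝 l)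

/-- `φ` is a test function (a member of `𝕏_s`) and `g` is `(-Δ)^s φ` on `Ω` -/
structure IsTest (s : ℝ) (Ω : Set ℂ) (φ g : ℂ → ℝ) : Prop where
  cont : Continuous φ
  supp : ∀ x, x ∉ closure Ω → φ x = 0
  lap : ∀ x ∈ Ω, FracLap s φ x (g x)
  bdd : ∃ M : ℝ, ∀ x ∈ Ω, |g x| ≤ M

/-- `u` is a weak solution of `(-Δ)^s u - μ 𝔻_s²(u) - c u = lam f` in `Ω`, `u = 0` outside `Ω` -/
structure IsWeakSol (s : ℝ) (Ω : Set ℂ) (lam : ℝ) (f c μ u : ℂ → ℝ) : Prop where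
  zero : ∀ x, x ∉ Ω → u x = 0
  int : IntegrableOn u Ω
  weak : ∃ D : ℂ → ℝ, (∀ᵐ x ∂(volume.restrict Ω), GradSq s u x (D x)) ∧ IntegrableOn D Ω ∧
    ∀ φ g : ℂ → ℝ, IsTest s Ω φ g →
      ∫ x in Ω, (lam * f x + c x * u x + μ x * D x) * φ x = ∫ x in Ω, u x * g x

/-- `u` (which vanishes outside `Ω`) is in `W^{s,2}(ℝ²)` and Hölder continuous on `Ω` -/
structure IsRegular (s : ℝ) (Ω : Set ℂ) (u : ℂ → ℝ) : Prop where
  l2 : MemLp u 2
  gag : Integrable (fun p : ℂ × ℂ => (u p.1 - u p.2) ^ 2 / ‖p.1 - p.2‖ ^ (2 + 2 * s))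
  hold : ∃ α C : ℝ, 0 < α ∧ α ≤ 1 ∧ ∀ x ∈ Ω, ∀ y ∈ Ω, |u x - u y| ≤ C * ‖x - y‖ ^ α

/-! ## Kernels and operators -/

/-- the kernel `|z|^(-2-2s)` -/
def J (s : ℝ) (z : ℂ) : ℝ := ‖z‖ ^ (-(2 + 2 * s))

/-- the regularised kernel -/
def Jt (s t : ℝ) (z : ℂ) : ℝ := (t ^ 2 + ‖z‖ ^ 2) ^ (-(1 + s))

/-- the regularised operator -/
def Lt (s t : ℝ) (f : ℂ → ℝ) (x : ℂ) : ℝ := ∫ z : ℂ, (f x - f (x + z)) * Jt s t z

/-- the operator on smooth functions -/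
def LL (s : ℝ) (w : ℂ → ℝ) (x : ℂ) : ℝ :=
  1 / 2 * ∫ z : ℂ, (2 * w x - w (x + z) - w (x - z)) * J s z

/-- the square of the nonlocal gradient, without the factor `a / 2` -/
def DD (s : ℝ) (w : ℂ → ℝ) (x : ℂ) : ℝ := ∫ z : ℂ, (w x - w z) ^ 2 * J s (x - z)

/-- twice continuously differentiable with compact support -/
structure C2c (w : ℂ → ℝ) : Prop where
  diff : ContDiff ℝ 2 w
  supp : HasCompactSupport w

/-- a nonnegative one with support in `Ω` -/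
structure Bp (Ω : Set ℂ) (w : ℂ → ℝ) : Prop where
  c2 : C2c w
  sub : tsupport w ⊆ Ω
  nonneg : ∀ x, 0 ≤ w x

/-- the sup-convolution -/
def sc (u : ℂ → ℝ) (δ : ℝ) (x : ℂ) : ℝ := ⨆ y : ℂ, (u y - ‖x - y‖ ^ 2 / (2 * δ))

/-- the kernel of the potential (not normalised) -/
def KK (s : ℝ) (x : ℂ) : ℝ := ‖x‖ ^ (2 * s - 2)

/-- `∫ Jt s 1` -/
def c1 (s : ℝ) : ℝ := ∫ z : ℂ, Jt s 1 z

/-- the result of the regularised operator on `KK` -/
def kt (s t : ℝ) (x : ℂ) : ℝ :=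
  c1 s * t ^ (-(2 * s)) * (‖x‖ ^ (2 * s - 2) - (t ^ 2 + ‖x‖ ^ 2) ^ (s - 1))

/-- `∫ kt s 1` -/
def C0 (s : ℝ) : ℝ := ∫ x : ℂ, kt s 1 x

/-- the potential of `ρ` -/
def pot (s : ℝ) (ρ : ℂ → ℝ) (x : ℂ) : ℝ := ∫ y : ℂ, KK s (x - y) * ρ y

/-- bounded measurable with bounded support -/
structure Bd (ρ : ℂ → ℝ) : Prop where
  meas : Measurable ρ
  bdd : ∃ M : ℝ, ∀ x, |ρ x| ≤ M
  supp : ∃ R : ℝ, ∀ x, R < ‖x‖ → ρ x = 0

/-! ## Elementary facts -/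

/-- **JOB FD-J.** Facts on the kernels. Proof. (1) `t² + |z|² ≥ min 1 t² (1 + |z|²)` and
`integrable_rpow_neg_one_add_norm_sq` (with `r = 2 + 2 s > 2`). (2) polar coordinates
(`integrable_fun_norm_addHaar`), `r · min(1, r²) r^(-2-2s)` is integrable on `(0, ∞)` since `2 s < 2`,
`2 s > 0`. (3) `|z|² ≤ t² + |z|²`. (4) continuity. (5) (3) for `t = 1` and positivity. (6) the
integrand of `(aC s)⁻¹` is nonnegative, at most `2 min(1, |ξ|²) J s ξ` and positive off a null set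
(or: continuous and positive on an open set); `‖ξ‖ ^ (-(2+2s)) = 1 / ‖ξ‖ ^ (2+2s)` by
`Real.rpow_neg`. -/
def S_J : Prop := ∀ s : ℝ, 0 < s → s < 1 →
  (∀ t : ℝ, 0 < t → Integrable (Jt s t)) ∧
  Integrable (fun z : ℂ => min 1 (‖z‖ ^ 2) * J s z) ∧
  (∀ t : ℝ, 0 < t → ∀ z : ℂ, 0 < Jt s t z ∧ (z ≠ 0 → Jt s t z ≤ J s z)) ∧
  (∀ z : ℂ, z ≠ 0 → Tendsto (fun t => Jt s t z) (𝓝[>] 0) (𝓝 (J s z))) ∧
  0 < c1 s ∧ 0 < aC s

/-- **JOB FD-CONV.** From sharp truncations to the regularised operator. Proof. Let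
`χ r = (r² / (1 + r²))^(1+s)`, so `Jt s t z = J s z * χ (|z| / t)` (`z ≠ 0`); `χ` is increasing and
differentiable on `(0, ∞)` with the limits `0` and `1`, `χ' r = 2 (1+s) r^(2s+1) (1+r²)^(-s-2)`. Let
`F ρ = ∫_{|z| > ρ} (φ x - φ (x + z)) J s z dz`, so `F ρ → l` as `ρ → 0+` (translate the variable in the
hypothesis). Fubini: `Lt s t φ x = ∫_0^∞ F (t r) χ' r dr`; absolute convergence:
`|F ρ| ≤ 2 M ∫_{|z|>ρ} J = C ρ^(-2s)` (the same bound for the integral of the absolute values), and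
`∫_0^∞ r^(-2s) χ' r dr < ∞`. `F` is bounded on `(0, ∞)`: near `0` because of the limit, elsewhere by
`C ρ^(-2s)`. Dominated convergence: `∫_0^∞ F (t r) χ' r dr → l ∫ χ' = l`. (`S_J` may be assumed.) -/
def S_CONV : Prop := ∀ s : ℝ, 0 < s → s < 1 → ∀ (φ : ℂ → ℝ) (M l : ℝ) (x : ℂ), Continuous φ →
  (∀ y, |φ y| ≤ M) →
  Tendsto (fun ε : ℝ => ∫ z in {z : ℂ | ε < ‖z - x‖}, (φ x - φ z) / ‖x - z‖ ^ (2 + 2 * s))
    (𝓝[>] 0) (𝓝 l) →
  Tendsto (fun t => Lt s t φ x) (𝓝[>] 0) (𝓝 l)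

/-- **JOB FD-SUP.** Sup-convolutions. Proof. The function `y ↦ u y - |x-y|²/(2δ)` is continuous,
bounded above by `M` and tends to `-∞`, so it has a maximum at some `y = y(x)`. (1) value at `y = x`;
`sc u δ` is a supremum of continuous functions which is locally uniformly approximated; simplest:
`sc u δ x + |x|²/(2δ) = ⨆ y, (u y - |y|²/(2δ) + ⟪x,y⟫/δ)` is convex and finite, so continuous; or:
it is lower semicontinuous as a supremum of continuous functions, which gives measurability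
(`lowerSemicontinuous_ciSup`, `LowerSemicontinuous.measurable`). (2) with `y = y(x)`:
`sc u δ (x+z) ≥ u (y+z) - |x+z-(y+z)|²/(2δ)`, so the inequality; and
`u x ≤ sc u δ x = u y - |x-y|²/(2δ)` gives `|x-y|² ≤ 2δ (u y - u x) ≤ 4 M δ`. (3) with `y = y(x)`:
`sc u δ (x ± z) ≥ u y - |x ± z - y|²/(2δ)`, add (parallelogram law). (4) by (2)
`u x ≤ sc u δ x ≤ u (y)`, `|x - y| ≤ √(4 M δ) → 0`, and `u` is continuous at `x`. -/
def S_SUP : Prop := ∀ (u : ℂ → ℝ) (M : ℝ), Continuous u → (∀ x, |u x| ≤ M) →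
  (∀ δ : ℝ, 0 < δ → (∀ x, u x ≤ sc u δ x ∧ sc u δ x ≤ M) ∧ Measurable (sc u δ) ∧
    (∀ x, ∃ y, ‖x - y‖ ^ 2 ≤ 4 * M * δ ∧ ∀ z, sc u δ x - sc u δ (x + z) ≤ u y - u (y + z)) ∧
    ∀ x z, 2 * sc u δ x - sc u δ (x + z) - sc u δ (x - z) ≤ ‖z‖ ^ 2 / δ) ∧
  ∀ x, Tendsto (fun δ => sc u δ x) (𝓝[>] 0) (𝓝 (u x))

/-- **JOB FD-PROD.** Second differences of smooth functions. Proof. (1) `w` is bounded, and by
Taylor's formula (the derivative of `w` is Lipschitz: continuous second derivative with compact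
support) the second difference is at most `C |z|²`. (2) Let `w` vanish outside the ball of radius `R`.
For `|z| ≤ 1` the second difference vanishes unless `|x| ≤ R + 1`; for `|z| ≥ 1` it is at most
`2 |w x| + |w (x+z)| + |w (x-z)|`, with `∫ dx ≤ 4 ‖w‖₁`. So the integral over `x` of its absolute value is
at most `C' min(1, |z|²)`; Tonelli (`integrable_prod_iff'`) and `S_J` (2). (3) by Fubini
(`Integrable.integral_prod_left`). (4) by (1). (5) `Jt` is even, so replace `z` by `-z` and take the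
mean. (`S_J` may be assumed.) -/
def S_PROD : Prop := ∀ s : ℝ, 0 < s → s < 1 → ∀ w : ℂ → ℝ, C2c w →
  (∃ C : ℝ, ∀ x z, |2 * w x - w (x + z) - w (x - z)| ≤ C * min 1 (‖z‖ ^ 2)) ∧
  Integrable (fun p : ℂ × ℂ => (2 * w p.1 - w (p.1 + p.2) - w (p.1 - p.2)) * J s p.2) ∧
  Integrable (LL s w) ∧ Measurable (LL s w) ∧ (∃ C : ℝ, ∀ x, |LL s w x| ≤ C) ∧
  ∀ t : ℝ, 0 < t → ∀ x, Lt s t w x =
    1 / 2 * ∫ z : ℂ, (2 * w x - w (x + z) - w (x - z)) * Jt s t z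

/-- **JOB FD-SYM.** Symmetry. Proof. (1) Fubini: `∫∫ w x (f x - f (x+z)) Jt z dz dx` (absolutely
convergent, `w` integrable, `f` bounded, `Jt` integrable); the part `∫ w x f x` is common, and
`∫∫ w x f (x+z) Jt z = ∫∫ w (x-z) f x Jt z = ∫∫ w (x+z) f x Jt z` (translate `x`, then `z ↦ -z`).
(2) By `S_PROD` (5), Fubini and dominated convergence on `ℂ × ℂ`:
`f x (2 w x - w (x+z) - w (x-z)) Jt s t z` is dominated by `M` times the absolute value of the integrable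
function of `S_PROD` (2) and converges to it times `f` as `t → 0+` (`S_J`). (`S_J`, `S_PROD` may be
assumed.) -/
def S_SYM : Prop := ∀ s : ℝ, 0 < s → s < 1 → ∀ w : ℂ → ℝ, C2c w → ∀ (f : ℂ → ℝ) (M : ℝ),
  Measurable f → (∀ x, |f x| ≤ M) →
  (∀ t : ℝ, 0 < t → ∫ x, w x * Lt s t f x = ∫ x, f x * Lt s t w x) ∧
  Tendsto (fun t => ∫ x, f x * Lt s t w x) (𝓝[>] 0) (𝓝 (∫ x, f x * LL s w x))

/-- **JOB FD-A.** Pointwise inequality implies the weak one. Proof. Let `|u| ≤ M`, `δ > 0` so small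
that for all `x` in the compact set `tsupport w` the ball of radius `√(4 M δ)` around `x` is in `Ω`, and
`v = sc u δ`. For `x ∈ tsupport w` let `y` be as in `S_SUP` (2), `y ∈ Ω`. Then
`Lt s t v x ≤ Lt s t u y ≤ 0` for `0 < t < t₀(y)`. Moreover by `S_SUP` (3) and the evenness of `Jt`
(as in `S_PROD` (5), `v` bounded measurable)
`Lt s t v x = 1/2 ∫ (2 v x - v (x+z) - v (x-z)) Jt ≤ 1/2 ∫ min(|z|²/δ, 4 M) J =: C < ∞` for all `t > 0`.
So the functions `w x * (C - Lt s (1/(n+1)) v x) ≥ 0` have a lower limit `≥ C * w x`, and Fatou's lemma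
gives `limsup ∫ w * Lt s (1/(n+1)) v ≤ 0`. By `S_SYM` (1), (2) these integrals tend to
`∫ v * LL s w`, which is therefore `≤ 0`. Now let `δ → 0`: `v → u` pointwise (`S_SUP` (4)), `|v| ≤ M`,
`LL s w` is integrable; dominated convergence. (`S_J`, `S_SUP`, `S_PROD`, `S_SYM` may be assumed.) -/
def S_A : Prop := ∀ s : ℝ, 0 < s → s < 1 → ∀ (Ω : Set ℂ) (u : ℂ → ℝ) (M : ℝ), IsOpen Ω →
  Continuous u → (∀ x, |u x| ≤ M) →
  (∀ y ∈ Ω, ∃ t₀ : ℝ, 0 < t₀ ∧ ∀ t : ℝ, 0 < t → t < t₀ → Lt s t u y ≤ 0) →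
  ∀ w : ℂ → ℝ, Bp Ω w → ∫ x, u x * LL s w x ≤ 0

/-! ## The explicit kernel -/

/-- **JOB FD-K1.** The explicit formula. Proof. (a) `∫ Jt s 1 z * KK s z dz = c1 s`: polar coordinates
(`integral_fun_norm_addHaar`): both are `2π ∫_0^∞`, of `r^(2s-1) (1+r²)^(-1-s)` (the derivative of
`(r²/(1+r²))^s / (2s)`) and of `r (1+r²)^(-1-s)` (the derivative of `-(1+r²)^(-s)/(2s)`), both equal to
`1/(2s)`. (b) For `x ∈ ℂ` let `f z = (z + x)/(1 - x̄ z)` (defined off one point, injective, onto the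
complement of one point). `1 + |f z|² = (1+|x|²)(1+|z|²)/|1 - x̄ z|²`, `f' z = (1+|x|²)/(1 - x̄ z)²`,
`|f z - x| = |z| (1+|x|²)/|1 - x̄ z|`. The change of variables `ζ = f z` (real Jacobian `|f' z|²`;
`integral_image_eq_integral_abs_det_fderiv_smul` or its `lintegral` version) gives
`∫ (1+|ζ|²)^(-1-s) |x - ζ|^(2s-2) dζ = (1+|x|²)^(s-1) ∫ (1+|z|²)^(-1-s) |z|^(2s-2) dz
 = (1+|x|²)^(s-1) c1 s` (all powers of `|1 - x̄ z|` cancel). Replace `ζ` by `-ζ` and scale by `t`: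
`∫ KK s (x+z) Jt s t z dz = c1 s t^(-2s) (t²+|x|²)^(s-1)`. And `∫ Jt s t = c1 s t^(-2s)`. (`S_J` may be
assumed.) -/
def S_K1 : Prop := ∀ s : ℝ, 0 < s → s < 1 → ∀ t : ℝ, 0 < t → ∀ x : ℂ,
  Integrable (fun z : ℂ => KK s (x + z) * Jt s t z) ∧
  ∫ z : ℂ, Jt s t z = c1 s * t ^ (-(2 * s)) ∧
  ∫ z : ℂ, KK s (x + z) * Jt s t z = c1 s * t ^ (-(2 * s)) * (t ^ 2 + ‖x‖ ^ 2) ^ (s - 1)

/-- **JOB FD-K2.** Properties of `kt`. Proof. (1) `s - 1 < 0` and `|x|² ≤ t² + |x|²`,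
`(|x|²)^(s-1) = |x|^(2s-2)`. (2) direct computation. (3) near `0` it is at most `C |x|^(2s-2)`,
integrable as `s > 0`; for `|x| ≥ 1`: `|x|^(2s-2) (1 - (1 + |x|^(-2))^(s-1)) ≤ (1-s) |x|^(2s-4)`
(Bernoulli: `(1+a)^(s-1) ≥ 1 - (1-s) a`), integrable as `2s - 4 < -2`; then all `t` by (2).
(4) the integrand is positive for `x ≠ 0`. (`S_J` may be assumed.) -/
def S_K2 : Prop := ∀ s : ℝ, 0 < s → s < 1 →
  (∀ t : ℝ, 0 < t → ∀ x : ℂ, x ≠ 0 → 0 < kt s t x) ∧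
  (∀ t : ℝ, 0 < t → ∀ x : ℂ, kt s t ((t : ℂ) * x) = (t ^ 2)⁻¹ * kt s 1 x) ∧
  (∀ t : ℝ, 0 < t → Integrable (kt s t)) ∧ 0 < C0 s

/-- **JOB FD-K3.** Potentials are continuous and bounded. Proof. `KK s = KK s * 1_{|x| ≤ 1} + KK s *
1_{|x| > 1}`; the first part is integrable, the second one bounded by `1`, `ρ` is bounded and
integrable. So the potential is bounded and the integrals converge. Continuity:
`pot s ρ x = ∫ KK s z * ρ (x - z) dz` is the limit, uniform in `x`, of the continuous functions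
`∫ min(KK s z, n) ρ (x-z) dz = ∫ min(KK s (x - y), n) ρ y dy` (dominated convergence, the truncated kernel
is continuous off the origin and bounded): the difference is at most
`M ∫_{KK s z > n} KK s z dz → 0`. -/
def S_K3 : Prop := ∀ s : ℝ, 0 < s → s < 1 → ∀ ρ : ℂ → ℝ, Bd ρ →
  (∀ x, Integrable (fun y => KK s (x - y) * ρ y)) ∧ Continuous (pot s ρ) ∧
  ∃ B : ℝ, ∀ x, |pot s ρ x| ≤ B

/-- **JOB FD-K4.** The regularised operator on potentials. Proof. (1) Fubini: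
`∫∫ KK s (x+z-y) |ρ y| Jt s t z dy dz < ∞` by `S_K1` (the inner integral over `z` is at most
`c1 s t^(-2s) t^(2s-2)`), and `S_K1` with `x - y` for `x`. (2) `y = x - t z`, then dominated convergence:
`∫ kt s t (x-y) ρ y dy = ∫ kt s 1 z * ρ (x - t z) dz`, by `S_K2` (2). (3) By `S_SYM` (1) with
`f = pot s ρ` and (1): `∫ pot s ρ * Lt s t w = ∫ w x ∫ kt s t (x-y) ρ y dy dx =
∫ ρ y ∫ kt s t (y - x) w x dx dy` (`kt` is even); as `t → 0+` the left side tends to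
`∫ pot s ρ * LL s w` (`S_SYM` (2)), the inner integral on the right tends to `C0 s * w y` by (2) and is
bounded by `C0 s * sup |w|`, `ρ` is integrable. (`S_J`, `S_PROD`, `S_SYM`, `S_K1`, `S_K2`, `S_K3` may be
assumed.) -/
def S_K4 : Prop := ∀ s : ℝ, 0 < s → s < 1 →
  (∀ ρ : ℂ → ℝ, Bd ρ → ∀ t : ℝ, 0 < t → ∀ x, Integrable (fun y => kt s t (x - y) * ρ y) ∧
    Lt s t (pot s ρ) x = ∫ y : ℂ, kt s t (x - y) * ρ y) ∧
  (∀ ρ : ℂ → ℝ, Continuous ρ → HasCompactSupport ρ → ∀ x,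
    Tendsto (fun t => ∫ y : ℂ, kt s t (x - y) * ρ y) (𝓝[>] 0) (𝓝 (C0 s * ρ x))) ∧
  ∀ ρ : ℂ → ℝ, Bd ρ → ∀ w : ℂ → ℝ, C2c w →
    ∫ x, pot s ρ x * LL s w x = C0 s * ∫ x, ρ x * w x

/-! ## The main identity -/

/-- **JOB FD-MAJ.** A lower semicontinuous majorant. Proof. Let `f = Ω.indicator g`, integrable. By
the theorem of Vitali and Carathéodory (`exists_lt_lowerSemicontinuous_integral_lt`) there is a lower
semicontinuous `G : ℂ → EReal`, `f < G`, with `∫ G.toReal < ∫ f + η`, `G.toReal` integrable and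
`G < ⊤` almost everywhere. Let `h = min G (M+1)` (real valued), `ρ = Ω.indicator h`: `g < h ≤ M + 1` on
`Ω` (so `|ρ| ≤ M + 1`), measurable, and `∫_Ω (h - g) ≤ ∫ (G.toReal - f) ≤ η`. Let `y ∈ Ω`,
`g y < τ < h y`. As `h` is lower semicontinuous and `Ω` is open there is `r > 0` with `ball y r ⊆ Ω` and
`h > τ` on it. With `R` such that `Ω` is in the ball of radius `R` put
`ρ₀ x = -(M+1) max(0, min(1, R + 1 - |x|)) + (τ + M + 1) max(0, 1 - |x-y|/r)`: continuous with compact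
support, `ρ₀ ≤ ρ` (cases `x ∉ Ω`, `x ∈ Ω` outside and inside of the ball) and `ρ₀ y = τ`. -/
def S_MAJ : Prop := ∀ (Ω : Set ℂ) (g : ℂ → ℝ) (M η : ℝ), IsOpen Ω → Bornology.IsBounded Ω →
  Measurable (Ω.indicator g) → 0 ≤ M → (∀ x ∈ Ω, |g x| ≤ M) → 0 < η →
  ∃ ρ : ℂ → ℝ, Bd ρ ∧ (∀ x, x ∉ Ω → ρ x = 0) ∧ (∀ x ∈ Ω, g x < ρ x) ∧
    ∫ x in Ω, (ρ x - g x) ≤ η ∧
    ∀ y ∈ Ω, ∃ ρ₀ : ℂ → ℝ, Continuous ρ₀ ∧ HasCompactSupport ρ₀ ∧ (∀ x, ρ₀ x ≤ ρ x) ∧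
      g y < ρ₀ y

/-- **JOB FD-C.** The main identity. Proof. It is enough to prove
`∫ φ * LL s w ≤ ∫_Ω g w` (apply it to `-φ`, `-g` too). `Ω.indicator g` is measurable: it is the limit of
the functions `Ω.indicator (Lt s (1/(n+1)) φ)`. Let `η > 0` and `ρ` from `S_MAJ`,
`u = φ - pot s ρ / C0 s`, continuous and bounded (`S_K3`). Let `y ∈ Ω` and `ρ₀` from `S_MAJ`. By `S_K4`,
`S_K2` (1) and `ρ₀ ≤ ρ`: `Lt s t (pot s ρ) y = ∫ kt s t (y-x) ρ x dx ≥ ∫ kt s t (y-x) ρ₀ x dx → C0 s ρ₀ y`.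
`Lt s t φ y → g y < ρ₀ y`. So `Lt s t u y = Lt s t φ y - Lt s t (pot s ρ) y / C0 s ≤ 0` for small `t`
(linearity of `Lt s t` on bounded continuous functions). `S_A`: `∫ u * LL s w ≤ 0`, that is, by `S_K4`,
`∫ φ * LL s w ≤ ∫ ρ w = ∫_Ω ρ w ≤ ∫_Ω g w + η sup w`. (`S_J`, `S_PROD`, `S_A`, `S_K2`, `S_K3`, `S_K4`,
`S_MAJ` may be assumed.) -/
def S_C : Prop := ∀ s : ℝ, 0 < s → s < 1 → ∀ (Ω : Set ℂ) (φ g : ℂ → ℝ) (M : ℝ), IsOpen Ω →
  Bornology.IsBounded Ω → Continuous φ → (∀ x, x ∉ closure Ω → φ x = 0) →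
  0 ≤ M → (∀ x ∈ Ω, |g x| ≤ M) →
  (∀ x ∈ Ω, Tendsto (fun t => Lt s t φ x) (𝓝[>] 0) (𝓝 (g x))) →
  ∀ w : ℂ → ℝ, Bp Ω w → ∫ x in Ω, g x * w x = ∫ x, φ x * LL s w x

/-! ## The solution -/

/-- **JOB FD-D.** The square of the gradient. Proof. `(w x - w z)² ≤ C min(1, |x-z|²)` (`w` is bounded
and Lipschitz). (1) `J s (x - z) = 1/‖x-z‖^(2+2s)`; dominated convergence with `S_J` (2) (translated).
(2) parametric integral (`StronglyMeasurable.integral_prod_right` for the measurable function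
`(x, z) ↦ (w x - w z)² J s (x - z)`); the bound by `C ∫ min(1,|z|²) J s z`. (3) Let `w x₀ ≠ 0`,
`a = w x₀`, so `|w z| ≥ |a|/2` (same sign) on a ball `B` around `x₀`, and let `B'` be a ball where `w = 0`.
If `|w x| ≤ |a|/4` then `(w x - w z)² ≥ a²/16` for `z ∈ B`, otherwise for `z ∈ B'`; and `J s (x - z)` is
bounded below by a positive constant for `|x| ≤ R`, `z ∈ B ∪ B'` (`x ≠ z`). (4) Tonelli as in `S_PROD`: for
`|x - z| ≤ 1` the numerator is at most `C |x-z|²` and vanishes unless `|x| ≤ R + 1`; for `|x - z| ≥ 1` it is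
at most `2 w x² + 2 w z²`. (`S_J` may be assumed.) -/
def S_D : Prop := ∀ s : ℝ, 0 < s → s < 1 → ∀ w : ℂ → ℝ, C2c w →
  (∀ x, Tendsto (fun ε : ℝ => ∫ z in {z : ℂ | ε < ‖z - x‖}, (w x - w z) ^ 2 /
    ‖x - z‖ ^ (2 + 2 * s)) (𝓝[>] 0) (𝓝 (DD s w x))) ∧
  Measurable (DD s w) ∧ (∃ C : ℝ, ∀ x, |DD s w x| ≤ C) ∧
  ((∃ x, w x ≠ 0) → ∀ R : ℝ, ∃ d : ℝ, 0 < d ∧ ∀ x, ‖x‖ ≤ R → d ≤ DD s w x) ∧
  Integrable (fun p : ℂ × ℂ => (w p.1 - w p.2) ^ 2 / ‖p.1 - p.2‖ ^ (2 + 2 * s))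

/-- **JOB FD-NEG.** `LL` outside of the support. Proof. For `x` with `w x = 0` the integrand is
`-(w (x+z) + w (x-z)) J s z ≤ 0`, negative on a nonempty open set. (`S_J`, `S_PROD` may be assumed.) -/
def S_NEG : Prop := ∀ s : ℝ, 0 < s → s < 1 → ∀ w : ℂ → ℝ, C2c w → (∀ x, 0 ≤ w x) →
  (∃ x, w x ≠ 0) → ∀ x, w x = 0 → LL s w x < 0

end Q66.FD
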