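import Pool.Agent.Q66.FD.Stm
set_option autoImplicit false
open MeasureTheory Filter Topology Set
noncomputable section
namespace Q66.FD.SupP
open Q66.FD

theorem t_SUP : S_SUP := by
  intro u M hu hM
  have hM0 : 0 ≤ M := (abs_nonneg _).trans (hM 0)
  have hbdd : ∀ δ : ℝ, 0 < δ → ∀ x : ℂ,
      BddAbove (range fun y : ℂ => u y - ‖x - y‖ ^ 2 / (2 * δ)) := by
    intro δ hδ x
    refine ⟨M, ?_⟩
    rintro _ ⟨y, rfl⟩
    have := (abs_le.1 (hM y)).2
    have h2 : 0 ≤ ‖x - y‖ ^ 2 / (2 * δ) := by positivity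
    simp only
    linarith
  have hge : ∀ δ : ℝ, 0 < δ → ∀ x y : ℂ, u y - ‖x - y‖ ^ 2 / (2 * δ) ≤ sc u δ x :=
    fun δ hδ x y => le_ciSup (hbdd δ hδ x) y
  have hatt : ∀ δ : ℝ, 0 < δ → ∀ x : ℂ, ∃ y, sc u δ x = u y - ‖x - y‖ ^ 2 / (2 * δ) := by
    intro δ hδ x
    have hc : Continuous (fun y : ℂ => u y - ‖x - y‖ ^ 2 / (2 * δ)) := by fun_prop
    obtain ⟨y, hy⟩ := hc.exists_forall_ge' x (by
      have h1 := (isCompact_closedBall x (Real.sqrt (4 * M * δ))).compl_mem_cocompact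
      filter_upwards [h1] with y hy
      rw [mem_compl_iff, Metric.mem_closedBall, not_le, dist_eq_norm, norm_sub_rev] at hy
      have h2 : 4 * M * δ ≤ ‖x - y‖ ^ 2 := by
        have h3 := Real.sq_sqrt (show 0 ≤ 4 * M * δ by positivity)
        rw [← h3]
        exact pow_le_pow_left₀ (Real.sqrt_nonneg _) hy.le 2
      have h4 : 2 * M ≤ ‖x - y‖ ^ 2 / (2 * δ) := by
        rw [le_div_iff₀ (by positivity)]; linarith
      have h5 := (abs_le.1 (hM y)).2
      have h6 := (abs_le.1 (hM x)).1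
      simp
      linarith)
    refine ⟨y, le_antisymm (ciSup_le hy) (hge δ hδ x y)⟩
  have hlow : ∀ δ : ℝ, 0 < δ → ∀ x, u x ≤ sc u δ x := by
    intro δ hδ x
    have := hge δ hδ x x
    simpa using this
  have hdist : ∀ δ : ℝ, 0 < δ → ∀ x y, sc u δ x = u y - ‖x - y‖ ^ 2 / (2 * δ) →
      ‖x - y‖ ^ 2 ≤ 4 * M * δ := by
    intro δ hδ x y h
    have h1 := hlow δ hδ x
    rw [h] at h1
    have h5 := (abs_le.1 (hM y)).2
    have h6 := (abs_le.1 (hM x)).1
    have h7 : ‖x - y‖ ^ 2 / (2 * δ) ≤ 2 * M := by linarith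
    rw [div_le_iff₀ (by positivity)] at h7
    linarith
  refine ⟨fun δ hδ => ⟨fun x => ⟨hlow δ hδ x, ?_⟩, ?_, fun x => ?_, fun x z => ?_⟩, fun x => ?_⟩
  · obtain ⟨y, hy⟩ := hatt δ hδ x
    rw [hy]
    have := (abs_le.1 (hM y)).2
    have h2 : 0 ≤ ‖x - y‖ ^ 2 / (2 * δ) := by positivity
    linarith
  · have : LowerSemicontinuous (sc u δ) := by
      unfold sc
      apply lowerSemicontinuous_ciSup (hbdd δ hδ)
      intro y
      apply Continuous.lowerSemicontinuous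
      fun_prop
    exact this.measurable
  · obtain ⟨y, hy⟩ := hatt δ hδ x
    refine ⟨y, hdist δ hδ x y hy, fun z => ?_⟩
    have h1 := hge δ hδ (x + z) (y + z)
    rw [add_sub_add_right_eq_sub] at h1
    linarith
  · obtain ⟨y, hy⟩ := hatt δ hδ x
    have h1 := hge δ hδ (x + z) y
    have h2 := hge δ hδ (x - z) y
    have h3 := parallelogram_law_with_norm ℝ (x - y) z
    rw [show x + z - y = (x - y) + z by ring] at h1
    rw [show x - z - y = (x - y) - z by ring] at h2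
    have h4 : ‖x - y + z‖ ^ 2 / (2 * δ) + ‖x - y - z‖ ^ 2 / (2 * δ) =
        2 * (‖x - y‖ ^ 2 / (2 * δ)) + ‖z‖ ^ 2 / δ := by
      have h5 : ‖x - y + z‖ ^ 2 + ‖x - y - z‖ ^ 2 = 2 * (‖x - y‖ ^ 2 + ‖z‖ ^ 2) := by
        nlinarith [h3]
      rw [← add_div, h5]
      field_simp
    linarith
  · rw [Metric.tendsto_nhds]
    intro ε hε
    obtain ⟨r, hr, hrb⟩ := Metric.continuous_iff.1 hu x ε hε
    have hev : ∀ᶠ δ in 𝓝[>] (0:ℝ), 4 * M * δ < r ^ 2 := by
      have h1 : Tendsto (fun δ : ℝ => 4 * M * δ) (𝓝[>] 0) (𝓝 (4 * M * 0)) :=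
        ((continuous_const.mul continuous_id).tendsto 0).mono_left nhdsWithin_le_nhds
      rw [mul_zero] at h1
      exact (tendsto_order.1 h1).2 _ (by positivity)
    filter_upwards [hev, self_mem_nhdsWithin] with δ h1 hδ
    have hδ' : 0 < δ := hδ
    obtain ⟨y, hy⟩ := hatt δ hδ' x
    have h2 := hdist δ hδ' x y hy
    have h3 : dist y x < r := by
      rw [dist_eq_norm, norm_sub_rev]
      exact lt_of_pow_lt_pow_left₀ 2 hr.le (lt_of_le_of_lt h2 h1)
    have h4 := hrb y h3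
    rw [Real.dist_eq, abs_lt] at h4 ⊢
    have h5 := hlow δ hδ' x
    have h6 : 0 ≤ ‖x - y‖ ^ 2 / (2 * δ) := by positivity
    constructor <;> linarith

end Q66.FD.SupP

namespace Q66.FD
theorem t_SUP : S_SUP := SupP.t_SUP
end Q66.FD
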